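import Pool.Agent.Helper70_LQD.SOBA

/-!
# SOB: the Sobolev inequality
-/

set_option autoImplicit false

open MeasureTheory ProbabilityTheory Function Filter

open scoped ENNReal BigOperators Topology NNReal ComplexOrder Matrix

noncomputable section

namespace Pool.Agent.LE.QD.H70

open Pool.Agent.Anderson hiding box mem_box card_box
open Pool.Agent.Loc Pool.Agent.Mob Pool.Agent.Helper54.Bal
  Pool.Agent.Helper96.EXP Pool.Agent.BED
open Pool.Agent.LE.MN Pool.Agent.LE.CL Pool.Agent.LE.IR Pool.Agent.LE.IR.H54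

variable {d M : ℕ} [NeZero M]

theorem n2_nonneg {X : Type} [Fintype X] (g : X → ℂ) : 0 ≤ n2 g :=
  Finset.sum_nonneg fun x _ => by positivity

/-- the form of `cos (t (adj - E))` -/
def ph (E t : ℝ) (g : Tor d M → ℂ) : ℝ :=
  pm fun p => Real.cos (t * (es p - E)) * ‖ft g p‖ ^ 2

theorem ph_eq (E t : ℝ) (g : Tor d M → ℂ) : ((ph E t g : ℝ) : ℂ) =
    (∑ p, (starRingEnd ℂ) (ft g p) * (((Real.cos (t * (es p - E)) : ℝ) : ℂ) * ft g p)) /
        (M : ℂ) ^ d := by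
  unfold ph pm
  push_cast
  congr 1
  refine Finset.sum_congr rfl fun p _ => ?_
  have h1 : (starRingEnd ℂ) (ft g p) * ft g p = ((‖ft g p‖ ^ 2 : ℝ) : ℂ) := by
    rw [← Complex.normSq_eq_norm_sq, Complex.normSq_eq_conj_mul_self]
  rw [Complex.ofReal_pow] at h1
  rw [← h1]
  ring

theorem ph_abs_le (E t : ℝ) (g : Tor d M → ℂ) : |ph E t g| ≤ n2 g := by
  have h1 := form_cos_norm_le E t g g
  rw [← ph_eq, Complex.norm_real, Real.norm_eq_abs, Real.mul_self_sqrt (n2_nonneg g)] at h1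
  exact h1

theorem ph_cont (E : ℝ) (g : Tor d M → ℂ) : Continuous fun t => ph E t g := by
  unfold ph pm
  refine Continuous.div_const (continuous_finsetSum _ fun p _ => ?_) _
  exact Continuous.mul (by fun_prop) continuous_const

/-- one dyadic block -/
theorem block {CI Cb : ℝ} (hCI : 1 ≤ CI) (hCb : 1 ≤ Cb)
    (hI : ∀ (X : Type) [Fintype X] (T : X → X → ℂ) (f : X → ℂ) (A B : ℝ), 0 ≤ A → 0 ≤ B →
    (∀ x y, ‖T x y‖ ≤ B) →
    (∀ g h : X → ℂ, ‖∑ x, ∑ y, (starRingEnd ℂ) (g x) * (T x y * h y)‖ ≤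
      A * (Real.sqrt (n2 g) * Real.sqrt (n2 h))) →
      ‖∑ x, ∑ y, (starRingEnd ℂ) (f x) * (T x y * f y)‖ ≤
        CI * Real.sqrt (A * B) * (∑ x, ‖f x‖ ^ (4 / 3 : ℝ)) ^ (3 / 2 : ℝ))
    {T : ℝ} (hT : 1 ≤ T)
    (hb : ∀ y : Tor d M, ∫ t in T..2 * T,
        (‖(∑ p, ec p y * Complex.exp (Complex.I * ((t * es p : ℝ) : ℂ))) / (M : ℂ) ^ d‖ +
          ‖(∑ p, ec p y * Complex.exp (-(Complex.I * ((t * es p : ℝ) : ℂ)))) / (M : ℂ) ^ d‖) ≤
        Cb * T ^ (-(1 / 3 : ℝ)) * (1 + Real.log T))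
    (E : ℝ) {a : ℝ} (ha : 0 < a) (g : Tor d M → ℂ) :
    |∫ t in T..2 * T, Real.exp (-(a * t)) * ph E t g| ≤
      CI * (Cb * a ^ (-(1 / 3 : ℝ)) * (1 + Real.log T)) *
        (∑ x, ‖g x‖ ^ (4 / 3 : ℝ)) ^ (3 / 2 : ℝ) := by
  have hT0 : 0 < T := by linarith
  have hlog : 0 ≤ Real.log T := Real.log_nonneg hT
  have hB0 : 0 ≤ Cb * T ^ (-(1 / 3 : ℝ)) * (1 + Real.log T) := by positivity
  have hG : 0 ≤ (∑ x, ‖g x‖ ^ (4 / 3 : ℝ)) ^ (3 / 2 : ℝ) :=
    Real.rpow_nonneg (Finset.sum_nonneg fun x _ => by positivity) _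
  have h1 := hI (Tor d M) (kb E a T) g (T * Real.exp (-(a * T)))
    (Real.exp (-(a * T)) * (Cb * T ^ (-(1 / 3 : ℝ)) * (1 + Real.log T))) (by positivity)
    (by positivity) (fun x y => kb_bd ha hT0.le x y (hb (x - y)))
    (fun g h => kb_op ha hT0.le g h)
  have h2 : ∑ x, ∑ y, (starRingEnd ℂ) (g x) * (kb E a T x y * g y) =
      ((∫ t in T..2 * T, Real.exp (-(a * t)) * ph E t g : ℝ) : ℂ) := by
    rw [kb_form, ← intervalIntegral.integral_ofReal]
    refine intervalIntegral.integral_congr fun t _ => ?_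
    rw [← ph_eq]
    push_cast
    ring
  rw [h2, Complex.norm_real, Real.norm_eq_abs] at h1
  refine h1.trans ?_
  have h3 : Real.sqrt (T * Real.exp (-(a * T)) *
      (Real.exp (-(a * T)) * (Cb * T ^ (-(1 / 3 : ℝ)) * (1 + Real.log T)))) ≤
      Cb * a ^ (-(1 / 3 : ℝ)) * (1 + Real.log T) := by
    apply Real.sqrt_le_iff.2
    refine ⟨by positivity, ?_⟩
    set u : ℝ := T ^ (1 / 3 : ℝ) with hu
    set w : ℝ := a ^ (1 / 3 : ℝ) with hw
    have hu0 : 0 < u := by positivity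
    have hw0 : 0 < w := by positivity
    have hu3 : u ^ 3 = T := by
      rw [hu, ← Real.rpow_natCast, ← Real.rpow_mul hT0.le]
      norm_num
    have hui : T ^ (-(1 / 3 : ℝ)) = u⁻¹ := by
      rw [Real.rpow_neg hT0.le]
    have hwi : a ^ (-(1 / 3 : ℝ)) = w⁻¹ := by
      rw [Real.rpow_neg ha.le]
    have hw3 : w ^ 3 = a := by
      rw [hw, ← Real.rpow_natCast, ← Real.rpow_mul ha.le]
      norm_num
    set e : ℝ := Real.exp (-(a * T)) with he
    have he0 : 0 < e := Real.exp_pos _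
    -- `u w e ≤ 1`
    have h4 : u * w * e ≤ 1 := by
      have h5 : u * w ≤ 1 + (u * w) ^ 3 := by
        have : 0 < u * w := by positivity
        nlinarith [sq_nonneg (u * w - 1), sq_nonneg (u * w)]
      have h6 : (u * w) ^ 3 = a * T := by rw [mul_pow, hu3, hw3, mul_comm]
      rw [h6] at h5
      have h7 : 1 + a * T ≤ Real.exp (a * T) := by
        have := Real.add_one_le_exp (a * T)
        linarith
      have h8 : Real.exp (a * T) * e = 1 := by
        rw [he, ← Real.exp_add, add_neg_cancel, Real.exp_zero]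
      calc u * w * e ≤ Real.exp (a * T) * e := by
            apply mul_le_mul_of_nonneg_right (h5.trans h7) he0.le
        _ = 1 := h8
    rw [hui, hwi]
    have h5 : u * e ≤ w⁻¹ := by
      rw [le_inv_comm₀ (by positivity) hw0, ]
      rw [← one_div, le_div_iff₀ (by positivity)]
      calc w * (u * e) = u * w * e := by ring
        _ ≤ 1 := h4
    have h6 : T * e * (e * (Cb * u⁻¹ * (1 + Real.log T))) =
        (u * e) ^ 2 * (Cb * (1 + Real.log T)) := by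
      rw [← hu3]
      field_simp
    rw [h6]
    have h7 : Cb * (1 + Real.log T) ≤ (Cb * (1 + Real.log T)) ^ 2 := by
      have : 1 ≤ Cb * (1 + Real.log T) := by nlinarith
      nlinarith
    calc (u * e) ^ 2 * (Cb * (1 + Real.log T)) ≤ (w⁻¹) ^ 2 * (Cb * (1 + Real.log T)) ^ 2 := by
          gcongr
      _ = (Cb * w⁻¹ * (1 + Real.log T)) ^ 2 := by ring
  gcongr

/-- the value at one scale -/
theorem scale {CI Cb : ℝ} (hCI : 1 ≤ CI) (hCb : 1 ≤ Cb)
    (hI : ∀ (X : Type) [Fintype X] (T : X → X → ℂ) (f : X → ℂ) (A B : ℝ), 0 ≤ A → 0 ≤ B →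
    (∀ x y, ‖T x y‖ ≤ B) →
    (∀ g h : X → ℂ, ‖∑ x, ∑ y, (starRingEnd ℂ) (g x) * (T x y * h y)‖ ≤
      A * (Real.sqrt (n2 g) * Real.sqrt (n2 h))) →
      ‖∑ x, ∑ y, (starRingEnd ℂ) (f x) * (T x y * f y)‖ ≤
        CI * Real.sqrt (A * B) * (∑ x, ‖f x‖ ^ (4 / 3 : ℝ)) ^ (3 / 2 : ℝ))
    (hb : ∀ (T : ℝ) (y : Tor d M), 1 ≤ T → 2 * T ≤ M / 40 → ∫ t in T..2 * T,
        (‖(∑ p, ec p y * Complex.exp (Complex.I * ((t * es p : ℝ) : ℂ))) / (M : ℂ) ^ d‖ +
          ‖(∑ p, ec p y * Complex.exp (-(Complex.I * ((t * es p : ℝ) : ℂ)))) / (M : ℂ) ^ d‖) ≤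
        Cb * T ^ (-(1 / 3 : ℝ)) * (1 + Real.log T))
    {K : ℕ} (hK : (2 : ℝ) ^ K ≤ M / 40)
    (E : ℝ) {a : ℝ} (ha : 0 < a) (haK : 1 ≤ a ^ 2 * 2 ^ K) (g : Tor d M → ℂ) :
    pm (fun p => Pool.Agent.Anderson.ker a (es p - E) * ‖ft g p‖ ^ 2) ≤
      2 * n2 g + K * (CI * (Cb * a ^ (-(1 / 3 : ℝ)) * (1 + Real.log M)) *
        (∑ x, ‖g x‖ ^ (4 / 3 : ℝ)) ^ (3 / 2 : ℝ)) := by
  have hG : 0 ≤ (∑ x, ‖g x‖ ^ (4 / 3 : ℝ)) ^ (3 / 2 : ℝ) :=
    Real.rpow_nonneg (Finset.sum_nonneg fun x _ => by positivity) _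
  set φ : ℝ → ℝ := fun t => Real.exp (-(a * t)) * ph E t g with hφ
  have hφc : Continuous φ := (by fun_prop : Continuous fun t : ℝ => Real.exp (-(a * t))).mul
    (ph_cont E g)
  set T₀ : ℝ := 2 ^ K with hT₀
  have hT₀1 : 1 ≤ T₀ := one_le_pow₀ (by norm_num)
  have hM40 : (1 : ℝ) ≤ M / 40 := hT₀1.trans hK
  have hM1 : (1 : ℝ) ≤ M := by linarith
  -- Laplace
  have h1 : pm (fun p => Pool.Agent.Anderson.ker a (es p - E) * ‖ft g p‖ ^ 2) ≤
      (∫ t in (0 : ℝ)..T₀, φ t) + Real.exp (-(a * T₀)) / a * n2 g := by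
    have h2 : ∫ t in (0 : ℝ)..T₀, φ t =
        pm fun p => (∫ t in (0 : ℝ)..T₀, Real.exp (-(a * t)) * Real.cos (t * (es p - E))) *
          ‖ft g p‖ ^ 2 := by
      unfold pm
      have h3 : ∀ p : Tor d M, (∫ t in (0 : ℝ)..T₀, Real.exp (-(a * t)) *
          Real.cos (t * (es p - E))) * ‖ft g p‖ ^ 2 =
          ∫ t in (0 : ℝ)..T₀, Real.exp (-(a * t)) * Real.cos (t * (es p - E)) *
            ‖ft g p‖ ^ 2 := fun p => (intervalIntegral.integral_mul_const _ _).symm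
      rw [Finset.sum_congr rfl fun p _ => h3 p, ← intervalIntegral.integral_finsetSum,
        ← intervalIntegral.integral_div]
      · refine intervalIntegral.integral_congr fun t _ => ?_
        simp only [hφ]
        unfold ph pm
        rw [← mul_div_assoc, Finset.mul_sum]
        congr 1
        exact Finset.sum_congr rfl fun p _ => by ring
      · intro p _
        exact Continuous.intervalIntegrable (by fun_prop) _ _
    rw [h2]
    have h4 : n2 g = pm fun p => ‖ft g p‖ ^ 2 := Pool.Agent.LE.IR.H54.parseval1 g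
    rw [h4, ← pm_cmul]
    have h5 : ∀ F G : Tor d M → ℝ, pm F + pm G = pm fun p => F p + G p := by
      intro F G
      unfold pm
      rw [Finset.sum_add_distrib, add_div]
    rw [h5]
    refine pm_mono fun p => ?_
    have h6 := laplace_le ha (es p - E) T₀
    rw [← add_mul]
    gcongr
  -- tail
  have h2 : Real.exp (-(a * T₀)) / a ≤ 1 := by
    rw [div_le_one ha]
    have h3 : Real.exp (-(a * T₀)) * Real.exp (a * T₀) = 1 := by
      rw [← Real.exp_add, neg_add_cancel, Real.exp_zero]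
    have h4 : a * T₀ ≤ Real.exp (a * T₀) := by
      have := Real.add_one_le_exp (a * T₀)
      linarith
    have h5 : 0 < Real.exp (-(a * T₀)) := Real.exp_pos _
    have h6 : Real.exp (-(a * T₀)) * (a * T₀) ≤ 1 := by
      calc Real.exp (-(a * T₀)) * (a * T₀) ≤ Real.exp (-(a * T₀)) * Real.exp (a * T₀) := by
            gcongr
        _ = 1 := h3
    have h7 : 0 < a * T₀ := by positivity
    by_contra hcon
    push Not at hcon
    have h8 : a * (a * T₀) < Real.exp (-(a * T₀)) * (a * T₀) := by gcongr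
    nlinarith
  -- the integral
  have h3 : ∫ t in (0 : ℝ)..T₀, φ t ≤ n2 g + K * (CI * (Cb * a ^ (-(1 / 3 : ℝ)) *
      (1 + Real.log M)) * (∑ x, ‖g x‖ ^ (4 / 3 : ℝ)) ^ (3 / 2 : ℝ)) := by
    have h4 : ∫ t in (0 : ℝ)..T₀, φ t = (∫ t in (0 : ℝ)..1, φ t) +
        ∑ k ∈ Finset.range K, ∫ t in (2 : ℝ) ^ k..(2 : ℝ) ^ (k + 1), φ t := by
      rw [intervalIntegral.sum_integral_adjacent_intervals
        (fun k _ => hφc.intervalIntegrable _ _)]
      rw [pow_zero, intervalIntegral.integral_add_adjacent_intervals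
        (hφc.intervalIntegrable _ _) (hφc.intervalIntegrable _ _)]
    rw [h4]
    refine add_le_add ?_ ?_
    · have h5 := intervalIntegral.norm_integral_le_of_norm_le_const (a := 0) (b := 1)
        (C := n2 g) (f := φ) (fun t ht => by
          rw [Set.uIoc_of_le (by norm_num)] at ht
          rw [Real.norm_eq_abs, hφ]
          simp only
          rw [abs_mul, abs_of_pos (Real.exp_pos _)]
          have h6 : Real.exp (-(a * t)) ≤ 1 := by
            rw [Real.exp_le_one_iff]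
            have := ht.1
            nlinarith
          calc Real.exp (-(a * t)) * |ph E t g| ≤ 1 * n2 g :=
                mul_le_mul h6 (ph_abs_le E t g) (abs_nonneg _) zero_le_one
            _ = n2 g := one_mul _)
      have h6 := le_abs_self (∫ t in (0 : ℝ)..1, φ t)
      rw [Real.norm_eq_abs, sub_zero, abs_one, mul_one] at h5
      exact h6.trans h5
    · have h5 : ∀ k ∈ Finset.range K, ∫ t in (2 : ℝ) ^ k..(2 : ℝ) ^ (k + 1), φ t ≤
          CI * (Cb * a ^ (-(1 / 3 : ℝ)) * (1 + Real.log M)) *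
            (∑ x, ‖g x‖ ^ (4 / 3 : ℝ)) ^ (3 / 2 : ℝ) := by
        intro k hk
        rw [Finset.mem_range] at hk
        have hk1 : (1 : ℝ) ≤ 2 ^ k := one_le_pow₀ (by norm_num)
        have hk2 : (2 : ℝ) * 2 ^ k ≤ M / 40 := by
          refine le_trans ?_ hK
          rw [← pow_succ', hT₀]
          exact pow_le_pow_right₀ (by norm_num) hk
        have h6 := block hCI hCb hI hk1 (fun y => hb _ y hk1 hk2) E ha g
        have h7 : (2 : ℝ) ^ (k + 1) = 2 * 2 ^ k := pow_succ' _ _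
        rw [h7]
        refine (le_abs_self _).trans (h6.trans ?_)
        have h8 : Real.log (2 ^ k) ≤ Real.log M := by
          apply Real.log_le_log (by positivity)
          linarith
        gcongr
      refine (Finset.sum_le_sum h5).trans (le_of_eq ?_)
      rw [Finset.sum_const, Finset.card_range, nsmul_eq_mul]
  have h4 := n2_nonneg g
  have h5 : Real.exp (-(a * T₀)) / a * n2 g ≤ 1 * n2 g := by gcongr
  linarith

/-- `|g|_2 ≤ |g|_{4/3}` -/
theorem n2_le (g : Tor d M → ℂ) : n2 g ≤ (∑ x, ‖g x‖ ^ (4 / 3 : ℝ)) ^ (3 / 2 : ℝ) := by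
  set S : ℝ := ∑ x, ‖g x‖ ^ (4 / 3 : ℝ) with hS
  have hx0 : ∀ x, 0 ≤ ‖g x‖ ^ (4 / 3 : ℝ) := fun x => by positivity
  have hS0 : 0 ≤ S := Finset.sum_nonneg fun x _ => hx0 x
  have h1 : ∀ x, ‖g x‖ ^ 2 ≤ ‖g x‖ ^ (4 / 3 : ℝ) * S ^ (1 / 2 : ℝ) := by
    intro x
    have h2 : ‖g x‖ ^ 2 = ‖g x‖ ^ (4 / 3 : ℝ) * (‖g x‖ ^ (4 / 3 : ℝ)) ^ (1 / 2 : ℝ) := by
      rw [← Real.rpow_mul (norm_nonneg _), ← Real.rpow_add_of_nonneg (norm_nonneg _)
        (by norm_num) (by norm_num), ← Real.rpow_natCast]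
      norm_num
    rw [h2]
    have h3 : ‖g x‖ ^ (4 / 3 : ℝ) ≤ S :=
      Finset.single_le_sum (f := fun x => ‖g x‖ ^ (4 / 3 : ℝ)) (fun x _ => hx0 x)
        (Finset.mem_univ x)
    have h4 := hx0 x
    gcongr
  have h2 : n2 g ≤ S * S ^ (1 / 2 : ℝ) := by
    unfold n2
    refine (Finset.sum_le_sum fun x _ => h1 x).trans (le_of_eq ?_)
    rw [← Finset.sum_mul]
  refine h2.trans (le_of_eq ?_)
  have h3 : S * S ^ (1 / 2 : ℝ) = S ^ (1 : ℝ) * S ^ (1 / 2 : ℝ) := by rw [Real.rpow_one]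
  rw [h3, ← Real.rpow_add_of_nonneg hS0 (by norm_num) (by norm_num)]
  norm_num

/-- duality -/
theorem dual {E η A : ℝ} (hη : 0 < η) (hA : 0 ≤ A)
    (h : ∀ g : Tor d M → ℂ, pm (fun p => (mt (2 * d - E) η p)⁻¹ * ‖ft g p‖ ^ 2) ≤
      A * (∑ x, ‖g x‖ ^ (4 / 3 : ℝ)) ^ (3 / 2 : ℝ)) : Sob d M E η A := by
  intro f
  have hq0 : 0 ≤ qn E η f := pm_nonneg fun p => mul_nonneg (mt_pos E hη p).le (by positivity)
  set S : ℝ := ∑ x, ‖f x‖ ^ 4 with hS
  have hS0 : 0 ≤ S := Finset.sum_nonneg fun x _ => by positivity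
  set g : Tor d M → ℂ := fun x => ((‖f x‖ ^ 2 : ℝ) : ℂ) * f x with hg
  have h1 : ∑ x, (starRingEnd ℂ) (f x) * g x = ((S : ℝ) : ℂ) := by
    rw [hS]
    push_cast
    refine Finset.sum_congr rfl fun x _ => ?_
    have h2 : (starRingEnd ℂ) (f x) * f x = ((‖f x‖ ^ 2 : ℝ) : ℂ) := by
      rw [← Complex.normSq_eq_norm_sq, Complex.normSq_eq_conj_mul_self]
    calc (starRingEnd ℂ) (f x) * g x = ((‖f x‖ ^ 2 : ℝ) : ℂ) * ((starRingEnd ℂ) (f x) * f x) := by
          rw [hg]; ring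
      _ = (‖f x‖ : ℂ) ^ 4 := by
          rw [h2]; push_cast; ring
  have h2 := cs_pm (mt (2 * d - E) η) (mt_pos E hη) (ft f) (ft g)
  rw [← Pool.Agent.LE.IR.H54.parseval2, h1, Complex.norm_real, Real.norm_eq_abs,
    abs_of_nonneg hS0] at h2
  have h3 : ∑ x, ‖g x‖ ^ (4 / 3 : ℝ) = S := by
    rw [hS]
    refine Finset.sum_congr rfl fun x _ => ?_
    have h4 : ‖g x‖ = ‖f x‖ ^ 3 := by
      rw [hg]
      simp only
      rw [norm_mul, Complex.norm_real, Real.norm_eq_abs, abs_of_nonneg (by positivity)]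
      ring
    rw [h4, ← Real.rpow_natCast, ← Real.rpow_mul (norm_nonneg _), ← Real.rpow_natCast]
    norm_num
  have h4 := h g
  rw [h3] at h4
  set s : ℝ := Real.sqrt S with hs
  have hs0 : 0 ≤ s := Real.sqrt_nonneg _
  have hs2 : s ^ 2 = S := Real.sq_sqrt hS0
  have h5 : S ^ (3 / 2 : ℝ) = s ^ 3 := by
    rw [← hs2, ← Real.rpow_natCast, ← Real.rpow_mul hs0, ← Real.rpow_natCast]
    norm_num
  rw [h5] at h4
  have h6 : s ^ 4 ≤ qn E η f * (A * s ^ 3) := by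
    calc s ^ 4 = S ^ 2 := by rw [← hs2]; ring
      _ ≤ _ := h2
      _ ≤ qn E η f * (A * s ^ 3) := by
        apply mul_le_mul_of_nonneg_left h4 hq0
  have h7 : n4 f = s := rfl
  rw [h7]
  rcases hs0.eq_or_lt with h8 | h8
  · rw [← h8]
    positivity
  · have h9 : s ^ 3 * s ≤ s ^ 3 * (A * qn E η f) := by
      calc s ^ 3 * s = s ^ 4 := by ring
        _ ≤ _ := h6
        _ = _ := by ring
    exact le_of_mul_le_mul_left h9 (by positivity)

theorem sob (hBkt : BktStmt) (hInt : IntStmt) : SobStmt := by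
  intro d hd
  obtain ⟨Cb, hCb, hb⟩ := hBkt d hd
  obtain ⟨CI, hCI, hI⟩ := hInt
  have hCC : 1 ≤ CI * Cb := one_le_mul_of_one_le_of_one_le hCI hCb
  refine ⟨80 + 80 * (CI * Cb), by linarith, fun M _ E η hη hη1 hM => ?_⟩
  set C : ℝ := 80 + 80 * (CI * Cb) with hC
  have hM80 : 80 / η ^ 2 ≤ M := by
    refine le_trans ?_ hM
    gcongr
    linarith
  have hη2 : 0 < η ^ 2 := by positivity
  have hMη : 80 ≤ M * η ^ 2 := by rwa [div_le_iff₀ hη2] at hM80
  have hηsq : η ^ 2 ≤ 1 := pow_le_one₀ hη.le hη1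
  have hM1 : (80 : ℝ) ≤ M := by
    have hM0 : (0 : ℝ) ≤ M := Nat.cast_nonneg M
    nlinarith
  have hlogM : 0 ≤ Real.log M := Real.log_nonneg (by linarith)
  have hlog2 : (1 : ℝ) / 2 ≤ Real.log 2 := by
    have := Real.log_two_gt_d9
    linarith
  obtain ⟨K, hK1, hK2⟩ := exists_nat_pow_near (x := (M : ℝ) / 40) (y := 2) (by linarith)
    (by norm_num)
  have hKlog : (K : ℝ) ≤ 2 * Real.log M := by
    have h1 : Real.log ((2 : ℝ) ^ K) ≤ Real.log M := by
      apply Real.log_le_log (by positivity)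
      linarith
    rw [Real.log_pow] at h1
    have h2 : (0 : ℝ) ≤ K := Nat.cast_nonneg K
    nlinarith
  obtain ⟨n₀, hn1, hn2⟩ := exists_nat_pow_near (x := 1 / η) (y := 2)
    (by rw [le_div_iff₀ hη]; linarith) (by norm_num)
  have hnlog : (n₀ : ℝ) ≤ 2 * Real.log M := by
    have h0 : 1 / η ≤ M := by
      rw [div_le_iff₀ hη]
      nlinarith
    have h1 : Real.log ((2 : ℝ) ^ n₀) ≤ Real.log M := by
      apply Real.log_le_log (by positivity)
      linarith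
    rw [Real.log_pow] at h1
    have h2 : (0 : ℝ) ≤ n₀ := Nat.cast_nonneg n₀
    nlinarith
  have hn : 1 ≤ 2 ^ (n₀ + 1) * η := by
    rw [div_lt_iff₀ hη] at hn2
    exact hn2.le
  have hw1 : 1 ≤ η ^ (-(1 / 3 : ℝ)) := by
    rw [Real.rpow_neg hη.le]
    apply (one_le_inv₀ (by positivity)).2
    exact Real.rpow_le_one hη.le hη1 (by norm_num)
  apply dual hη (by positivity)
  intro g
  set G : ℝ := (∑ x, ‖g x‖ ^ (4 / 3 : ℝ)) ^ (3 / 2 : ℝ) with hG
  have hG0 : 0 ≤ G := Real.rpow_nonneg (Finset.sum_nonneg fun x _ => by positivity) _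
  have hNG : n2 g ≤ G := n2_le g
  have hN0 := n2_nonneg g
  -- one scale
  have h1 : ∀ j : ℕ, pm (fun p => Pool.Agent.Anderson.ker (2 ^ j * η) (es p - E) *
      ‖ft g p‖ ^ 2) ≤ 2 * G + (2 * Real.log M) * (CI * Cb * (1 + Real.log M)) * G *
        (η ^ (-(1 / 3 : ℝ)) * (4 / 5) ^ j) := by
    intro j
    have hj1 : (1 : ℝ) ≤ 2 ^ j := one_le_pow₀ (by norm_num)
    have ha : 0 < 2 ^ j * η := by positivity
    have h2 := scale hCI hCb hI (fun T y => hb M T y) hK1 E ha (by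
      have h3 : η ≤ 2 ^ j * η := by nlinarith
      have h4 : η ^ 2 ≤ (2 ^ j * η) ^ 2 := by gcongr
      have h5 : (M : ℝ) / 80 ≤ 2 ^ K := by
        rw [pow_succ] at hK2
        linarith
      calc (1 : ℝ) ≤ η ^ 2 * (M / 80) := by linarith
        _ ≤ (2 ^ j * η) ^ 2 * 2 ^ K := by gcongr) g
    refine h2.trans ?_
    rw [← hG]
    have h3 : (2 ^ j * η) ^ (-(1 / 3 : ℝ)) ≤ η ^ (-(1 / 3 : ℝ)) * (4 / 5) ^ j := by
      rw [Real.mul_rpow (by positivity) hη.le, mul_comm]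
      have h4 : ((2 : ℝ) ^ j) ^ (-(1 / 3 : ℝ)) ≤ (4 / 5) ^ j := by
        have h5 : ((2 : ℝ) ^ j) ^ (-(1 / 3 : ℝ)) = ((2 : ℝ) ^ (-(1 / 3 : ℝ))) ^ j := by
          rw [← Real.rpow_natCast, ← Real.rpow_mul (by norm_num), mul_comm,
            Real.rpow_mul (by norm_num), Real.rpow_natCast]
        rw [h5]
        have h6 : (2 : ℝ) ^ (-(1 / 3 : ℝ)) ≤ 4 / 5 := by
          have h7 : (2 : ℝ) ^ (-(1 / 3 : ℝ)) = (1 / 2 : ℝ) ^ (1 / 3 : ℝ) := by
            rw [Real.rpow_neg (by norm_num), ← Real.inv_rpow (by norm_num)]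
            congr 1
            norm_num
          rw [h7]
          have h8 : ((4 / 5 : ℝ) ^ 3) ^ (1 / 3 : ℝ) = 4 / 5 := by
            rw [← Real.rpow_natCast, ← Real.rpow_mul (by norm_num)]
            norm_num
          rw [← h8]
          apply Real.rpow_le_rpow (by norm_num) (by norm_num) (by norm_num)
        gcongr
      gcongr
    have h4 : (0 : ℝ) ≤ K := Nat.cast_nonneg K
    have h5 : (K : ℝ) * (CI * (Cb * (2 ^ j * η) ^ (-(1 / 3 : ℝ)) * (1 + Real.log M)) * G) ≤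
        (2 * Real.log M) * (CI * (Cb * (η ^ (-(1 / 3 : ℝ)) * (4 / 5) ^ j) *
          (1 + Real.log M)) * G) := by
      gcongr
    calc 2 * n2 g + K * (CI * (Cb * (2 ^ j * η) ^ (-(1 / 3 : ℝ)) * (1 + Real.log M)) * G) ≤
        2 * G + (2 * Real.log M) * (CI * (Cb * (η ^ (-(1 / 3 : ℝ)) * (4 / 5) ^ j) *
          (1 + Real.log M)) * G) := by linarith
      _ = _ := by ring
  -- the sum over the scales
  have h2 : pm (fun p => (mt (2 * d - E) η p)⁻¹ * ‖ft g p‖ ^ 2) ≤ n2 g +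
      4 * ∑ j ∈ Finset.range (n₀ + 1 + 1), pm (fun p =>
        Pool.Agent.Anderson.ker (2 ^ j * η) (es p - E) * ‖ft g p‖ ^ 2) := by
    have h3 : n2 g + 4 * ∑ j ∈ Finset.range (n₀ + 1 + 1), pm (fun p : Tor d M =>
        Pool.Agent.Anderson.ker (2 ^ j * η) (es p - E) * ‖ft g p‖ ^ 2) =
        pm fun p => (1 + 4 * ∑ j ∈ Finset.range (n₀ + 1 + 1),
          Pool.Agent.Anderson.ker (2 ^ j * η) (es p - E)) * ‖ft g p‖ ^ 2 := by
      have h4 : n2 g = pm fun p => ‖ft g p‖ ^ 2 := Pool.Agent.LE.IR.H54.parseval1 g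
      rw [h4]
      unfold pm
      rw [← Finset.sum_div, ← mul_div_assoc, ← add_div, Finset.sum_comm, Finset.mul_sum,
        ← Finset.sum_add_distrib]
      congr 1
      refine Finset.sum_congr rfl fun p _ => ?_
      rw [← Finset.sum_mul]
      ring
    rw [h3]
    refine pm_mono fun p => ?_
    have h5 := inv_sqrt_le hη hn (es p - E)
    have h6 : mt (2 * d - E) η p = Real.sqrt ((es p - E) ^ 2 + η ^ 2) := by
      rw [← mt_sq, Real.sqrt_sq (mt_pos E hη p).le]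
    rw [h6]
    gcongr
  refine h2.trans ?_
  have h3 : ∑ j ∈ Finset.range (n₀ + 1 + 1), pm (fun p : Tor d M =>
        Pool.Agent.Anderson.ker (2 ^ j * η) (es p - E) * ‖ft g p‖ ^ 2) ≤
      (n₀ + 2) * (2 * G) + (2 * Real.log M) * (CI * Cb * (1 + Real.log M)) * G *
        (η ^ (-(1 / 3 : ℝ)) * 5) := by
    refine (Finset.sum_le_sum fun j _ => h1 j).trans ?_
    rw [Finset.sum_add_distrib, Finset.sum_const, Finset.card_range, nsmul_eq_mul,
      ← Finset.mul_sum, ← Finset.mul_sum]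
    have h4 : ∑ j ∈ Finset.range (n₀ + 1 + 1), (4 / 5 : ℝ) ^ j ≤ 5 := by
      have h5 := geom_sum_eq (x := (4 / 5 : ℝ)) (by norm_num) (n₀ + 1 + 1)
      have h6 : (0 : ℝ) < (4 / 5) ^ (n₀ + 1 + 1) := by positivity
      have h7 : ((4 / 5 : ℝ) ^ (n₀ + 1 + 1) - 1) / (4 / 5 - 1) =
          5 * (1 - (4 / 5 : ℝ) ^ (n₀ + 1 + 1)) := by ring
      rw [h5, h7]
      linarith
    have h5 : (2 * Real.log M) * (CI * Cb * (1 + Real.log M)) * G *
        (η ^ (-(1 / 3 : ℝ)) * ∑ j ∈ Finset.range (n₀ + 1 + 1), (4 / 5 : ℝ) ^ j) ≤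
        (2 * Real.log M) * (CI * Cb * (1 + Real.log M)) * G * (η ^ (-(1 / 3 : ℝ)) * 5) := by
      gcongr
    push_cast
    linarith
  set L : ℝ := Real.log M with hL
  set w : ℝ := η ^ (-(1 / 3 : ℝ)) with hw
  have h4 : n2 g + 4 * ∑ j ∈ Finset.range (n₀ + 1 + 1), pm (fun p : Tor d M =>
        Pool.Agent.Anderson.ker (2 ^ j * η) (es p - E) * ‖ft g p‖ ^ 2) ≤
      (1 + 8 * (2 + 2 * L) + 40 * (CI * Cb) * L * (1 + L) * w) * G := by
    have h5 : ((n₀ : ℝ) + 2) * (2 * G) ≤ (2 * L + 2) * (2 * G) := by gcongr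
    nlinarith
  refine h4.trans ?_
  have h5 : 1 + 8 * (2 + 2 * L) + 40 * (CI * Cb) * L * (1 + L) * w ≤ C * w * (1 + L) ^ 2 := by
    have hL1 : 1 ≤ (1 + L) := by linarith
    have h6 : 1 + 8 * (2 + 2 * L) ≤ 17 * (w * (1 + L) ^ 2) := by
      have h7 : 1 * (1 + L) ≤ w * (1 + L) ^ 2 := by
        have : 1 + L ≤ (1 + L) ^ 2 := by nlinarith
        gcongr
      nlinarith
    have h7 : 40 * (CI * Cb) * L * (1 + L) * w ≤ 40 * (CI * Cb) * (w * (1 + L) ^ 2) := by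
      have h8 : L * (1 + L) ≤ (1 + L) ^ 2 := by nlinarith
      calc 40 * (CI * Cb) * L * (1 + L) * w = 40 * (CI * Cb) * w * (L * (1 + L)) := by ring
        _ ≤ 40 * (CI * Cb) * w * ((1 + L) ^ 2) := by gcongr
        _ = _ := by ring
    have h8 : 0 ≤ w * (1 + L) ^ 2 := by positivity
    rw [hC]
    nlinarith
  gcongr

end Pool.Agent.LE.QD.H70
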