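import Pool.Agent.Helper70_LQD.RES

set_option autoImplicit false

open MeasureTheory ProbabilityTheory Function Filter

open scoped ENNReal BigOperators Topology NNReal ComplexOrder Matrix

noncomputable section

namespace Pool.Agent.LE.QD.H70

open Pool.Agent.Anderson hiding box mem_box card_box
open Pool.Agent.Loc Pool.Agent.Mob Pool.Agent.Helper54.Bal
  Pool.Agent.Helper96.EXP Pool.Agent.BED
open Pool.Agent.LE.MN Pool.Agent.LE.CL Pool.Agent.LE.IR Pool.Agent.LE.IR.H54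

variable {d M : ℕ} [NeZero M]

/-- the rank one matrices of the form of the potential on the momenta -/
def xm (m : Tor d M → ℝ) (y : Tor d M) : Matrix (Tor d M) (Tor d M) ℂ :=
  Matrix.of fun p q => (((Real.sqrt (m p))⁻¹ * (Real.sqrt (m q))⁻¹ / (M : ℝ) ^ d : ℝ) : ℂ) *
    ((starRingEnd ℂ) (ec p y) * ec q y)

theorem xm_herm (m : Tor d M → ℝ) (y : Tor d M) : (xm m y).IsHermitian := by
  apply Matrix.IsHermitian.ext
  intro p q
  unfold xm
  simp only [Matrix.of_apply]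
  show (starRingEnd ℂ) (_ : ℂ) = _
  rw [map_mul, Complex.conj_ofReal, map_mul, Complex.conj_conj]
  have h : (Real.sqrt (m q))⁻¹ * (Real.sqrt (m p))⁻¹ / (M : ℝ) ^ d =
      (Real.sqrt (m p))⁻¹ * (Real.sqrt (m q))⁻¹ / (M : ℝ) ^ d := by ring
  rw [h]
  ring

theorem xm_mulVec (m : Tor d M → ℝ) (y : Tor d M) (u : Tor d M → ℂ) (p : Tor d M) :
    (xm m y *ᵥ u) p = (((Real.sqrt (m p))⁻¹ / (M : ℝ) ^ d : ℝ) : ℂ) *
      ((starRingEnd ℂ) (ec p y) * ∑ q, ec q y * ((((Real.sqrt (m q))⁻¹ : ℝ) : ℂ) * u q)) := by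
  unfold Matrix.mulVec dotProduct xm
  simp only [Matrix.of_apply]
  rw [Finset.mul_sum, Finset.mul_sum]
  refine Finset.sum_congr rfl fun q _ => ?_
  push_cast
  ring

theorem xm_sum (m : Tor d M → ℝ) (hm : ∀ p, 0 < m p) {η B : ℝ} (hη : 0 < η)
    (hle : ∀ p, η ≤ m p) (hB : pm (fun p => (m p)⁻¹) ≤ B) (u : Tor d M → ℂ) :
    ∑ y, nsq (xm m y *ᵥ u) ≤ B / η * nsq u := by
  have hM : (0 : ℝ) < (M : ℝ) ^ d := Mpos
  obtain ⟨F, hF⟩ := surj (d := d) (M := M) fun q => (((Real.sqrt (m q))⁻¹ : ℝ) : ℂ) * u q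
  have hS : ∀ y, ∑ q, ec q y * ((((Real.sqrt (m q))⁻¹ : ℝ) : ℂ) * u q) = (M : ℂ) ^ d * F y := by
    intro y
    have h := inversion F y
    rw [eq_div_iff Mne] at h
    rw [mul_comm, h]
    exact Finset.sum_congr rfl fun q _ => by rw [hF]
  have h1 : ∀ y, nsq (xm m y *ᵥ u) = (M : ℝ) ^ d * pm (fun p => (m p)⁻¹) * ‖F y‖ ^ 2 := by
    intro y
    unfold nsq pm
    have h2 : ∀ p, ‖(xm m y *ᵥ u) p‖ ^ 2 = (m p)⁻¹ * ‖F y‖ ^ 2 := by
      intro p
      rw [xm_mulVec, hS, norm_mul, norm_mul, norm_mul, RCLike.norm_conj, ec_norm, one_mul, norm_pow,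
        Complex.norm_natCast, Complex.norm_real, Real.norm_eq_abs]
      have h3 : 0 < Real.sqrt (m p) := Real.sqrt_pos.2 (hm p)
      rw [abs_of_pos (by positivity)]
      have h4 : (Real.sqrt (m p))⁻¹ / (M : ℝ) ^ d * ((M : ℝ) ^ d * ‖F y‖) =
          (Real.sqrt (m p))⁻¹ * ‖F y‖ := by
        field_simp
      rw [h4, mul_pow, inv_pow, Real.sq_sqrt (hm p).le]
    simp only [h2]
    rw [← Finset.sum_mul]
    field_simp
  simp only [h1]
  rw [← Finset.mul_sum, Pool.Agent.LE.IR.H54.parseval1]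
  have h5 : (fun p => ‖ft F p‖ ^ 2) = fun p => (m p)⁻¹ * ‖u p‖ ^ 2 := by
    funext p
    rw [hF, norm_mul, mul_pow, Complex.norm_real, Real.norm_eq_abs, sq_abs, inv_pow,
      Real.sq_sqrt (hm p).le]
  rw [h5]
  have h6 : pm (fun p => (m p)⁻¹ * ‖u p‖ ^ 2) ≤ η⁻¹ * (nsq u / (M : ℝ) ^ d) := by
    have h7 : nsq u / (M : ℝ) ^ d = pm fun p => ‖u p‖ ^ 2 := rfl
    rw [h7, ← pm_cmul]
    refine pm_mono fun p => ?_
    have h8 : (m p)⁻¹ ≤ η⁻¹ := inv_anti₀ hη (hle p)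
    gcongr
  have h9 : 0 ≤ pm (fun p => (m p)⁻¹) := pm_nonneg fun p => (inv_pos.2 (hm p)).le
  have h10 : 0 ≤ pm (fun p => (m p)⁻¹ * ‖u p‖ ^ 2) := pm_nonneg fun p => by
    have := hm p
    positivity
  have h11 : 0 ≤ B := h9.trans hB
  calc (M : ℝ) ^ d * pm (fun p => (m p)⁻¹) * pm (fun p => (m p)⁻¹ * ‖u p‖ ^ 2)
      ≤ (M : ℝ) ^ d * B * (η⁻¹ * (nsq u / (M : ℝ) ^ d)) := by gcongr
    _ = B / η * nsq u := by
        field_simp

theorem fbq_of {E η τ : ℝ} (hη : 0 < η) {V : Tor d M → ℝ}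
    (h : ∀ u : Tor d M → ℂ,
      nsq (Matrix.mulVec (∑ y, (V y : ℂ) • xm (fun p => IR.mt (2 * d - E) η p) y) u) ≤
        τ ^ 2 * nsq u) : FBq E η τ V := by
  set m : Tor d M → ℝ := fun p => IR.mt (2 * d - E) η p with hmd
  have hm : ∀ p, 0 < m p := fun p => mt_pos E hη p
  have hM : (0 : ℝ) < (M : ℝ) ^ d := Mpos
  intro f g
  have h1 := h fun p => ((Real.sqrt (m p) : ℝ) : ℂ) * ft f p
  have h2 : ∀ p, (Matrix.mulVec (∑ y, (V y : ℂ) • xm m y)
      (fun p => ((Real.sqrt (m p) : ℝ) : ℂ) * ft f p)) p =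
      (((Real.sqrt (m p))⁻¹ : ℝ) : ℂ) * ft (fun x => (V x : ℂ) * f x) p := by
    intro p
    rw [Matrix.sum_mulVec, Finset.sum_apply]
    unfold ft
    rw [Finset.mul_sum]
    refine Finset.sum_congr rfl fun y _ => ?_
    rw [Matrix.smul_mulVec, Pi.smul_apply, smul_eq_mul, xm_mulVec]
    have h3 : ∑ q, ec q y * ((((Real.sqrt (m q))⁻¹ : ℝ) : ℂ) *
        (((Real.sqrt (m q) : ℝ) : ℂ) * ∑ y, (starRingEnd ℂ) (ec q y) * f y)) =
        (M : ℂ) ^ d * f y := by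
      have h := inversion f y
      rw [eq_div_iff Mne] at h
      rw [mul_comm ((M : ℂ) ^ d), h]
      refine Finset.sum_congr rfl fun q _ => ?_
      have h4 : ((Real.sqrt (m q) : ℝ) : ℂ) ≠ 0 := by
        exact_mod_cast (Real.sqrt_pos.2 (hm q)).ne'
      rw [← mul_assoc ((((Real.sqrt (m q))⁻¹ : ℝ) : ℂ)), Complex.ofReal_inv, inv_mul_cancel₀ h4,
        one_mul]
      rfl
    rw [h3]
    have hM' : (M : ℂ) ^ d ≠ 0 := Mne
    push_cast
    field_simp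
  have h3 : nsq (Matrix.mulVec (∑ y, (V y : ℂ) • xm m y)
      (fun p => ((Real.sqrt (m p) : ℝ) : ℂ) * ft f p)) =
      (M : ℝ) ^ d * pm (fun p => (m p)⁻¹ * ‖ft (fun x => (V x : ℂ) * f x) p‖ ^ 2) := by
    unfold nsq pm
    rw [mul_div_cancel₀ _ hM.ne']
    refine Finset.sum_congr rfl fun p _ => ?_
    rw [h2, norm_mul, mul_pow, Complex.norm_real, Real.norm_eq_abs, sq_abs, inv_pow,
      Real.sq_sqrt (hm p).le]
  have h4 : nsq (fun p => ((Real.sqrt (m p) : ℝ) : ℂ) * ft f p) = (M : ℝ) ^ d * qn E η f := by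
    unfold nsq qn pm
    rw [mul_div_cancel₀ _ hM.ne']
    refine Finset.sum_congr rfl fun p _ => ?_
    rw [norm_mul, mul_pow, Complex.norm_real, Real.norm_eq_abs, sq_abs, Real.sq_sqrt (hm p).le]
  rw [h3, h4] at h1
  have h5 : pm (fun p => (m p)⁻¹ * ‖ft (fun x => (V x : ℂ) * f x) p‖ ^ 2) ≤ τ ^ 2 * qn E η f := by
    refine le_of_mul_le_mul_left ?_ hM
    refine h1.trans (le_of_eq ?_)
    ring
  rw [parseval2 (fun x => (V x : ℂ) * f x) g]
  refine (cs_pm m hm _ _).trans ?_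
  have h6 : 0 ≤ pm (fun p => m p * ‖ft g p‖ ^ 2) := pm_nonneg fun p => by
    have := hm p
    positivity
  calc pm (fun p => m p * ‖ft g p‖ ^ 2) *
        pm (fun p => (m p)⁻¹ * ‖ft (fun x => (V x : ℂ) * f x) p‖ ^ 2)
      ≤ pm (fun p => m p * ‖ft g p‖ ^ 2) * (τ ^ 2 * qn E η f) := by gcongr
    _ = τ ^ 2 * (qn E η g * qn E η f) := by
        unfold qn
        ring

theorem fbp (hNck : NckStmt) : FbpStmt := by
  intro d M _ v E η τ r B k hη hτ hr hk hB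
  have hm : ∀ p : Tor d M, 0 < IR.mt (2 * d - E) η p := fun p => mt_pos E hη p
  have hB0 : 0 ≤ B := le_trans (pm_nonneg fun p => (inv_pos.2 (hm p)).le) hB
  have h1 := hNck (Tor d M) (Tor d M) (fun y => xm (fun p => IR.mt (2 * d - E) η p) y) v (B / η) τ r k
    (fun y => xm_herm _ y) (by positivity)
    (fun u => xm_sum _ hm hη (fun p => le_mt E hη p) hB u) hτ hr hk
  have hcard : (Fintype.card (Tor d M) : ℝ) = (M : ℝ) ^ d := by
    rw [Fintype.card_fun, ZMod.card, Fintype.card_fin]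
    push_cast
    rfl
  rw [hcard] at h1
  refine le_trans (measure_mono ?_) h1
  intro V hV h
  exact hV (fbq_of hη h)

end Pool.Agent.LE.QD.H70
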