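import Pool.Agent.LE.StmtsQD
import Pool.Agent.Helper54_LIR.FTB

set_option autoImplicit false

open MeasureTheory ProbabilityTheory Function Filter

open scoped ENNReal BigOperators Topology NNReal ComplexOrder Matrix

noncomputable section

namespace Pool.Agent.LE.QD.H70

open Pool.Agent.Anderson hiding box mem_box card_box
open Pool.Agent.Loc Pool.Agent.Mob Pool.Agent.Helper54.Bal
  Pool.Agent.Helper96.EXP Pool.Agent.BED
open Pool.Agent.LE.MN Pool.Agent.LE.CL Pool.Agent.LE.IR Pool.Agent.LE.IR.H54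

variable {d M : ℕ} [NeZero M]

theorem Mpos : (0 : ℝ) < (M : ℝ) ^ d := by
  have h : 0 < M := Nat.pos_of_ne_zero (NeZero.ne M)
  positivity

theorem pm_mono {F G : Tor d M → ℝ} (h : ∀ p, F p ≤ G p) : pm F ≤ pm G := by
  unfold pm
  exact div_le_div_of_nonneg_right (Finset.sum_le_sum fun p _ => h p) Mpos.le

theorem pm_nonneg {F : Tor d M → ℝ} (h : ∀ p, 0 ≤ F p) : 0 ≤ pm F := by
  unfold pm
  exact div_nonneg (Finset.sum_nonneg fun p _ => h p) Mpos.le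

theorem pm_cmul (c : ℝ) (F : Tor d M → ℝ) : pm (fun p => c * F p) = c * pm F := by
  unfold pm
  rw [← Finset.mul_sum, mul_div_assoc]

theorem pm_sub (F G : Tor d M → ℝ) : pm (fun p => F p - G p) = pm F - pm G := by
  unfold pm
  rw [Finset.sum_sub_distrib, sub_div]

/-- Cauchy-Schwarz with a weight -/
theorem cs_pm (m : Tor d M → ℝ) (hm : ∀ p, 0 < m p) (a b : Tor d M → ℂ) :
    ‖(∑ p, (starRingEnd ℂ) (a p) * b p) / (M : ℂ) ^ d‖ ^ 2 ≤
      pm (fun p => m p * ‖a p‖ ^ 2) * pm (fun p => (m p)⁻¹ * ‖b p‖ ^ 2) := by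
  have h1 : ‖∑ p, (starRingEnd ℂ) (a p) * b p‖ ≤
      ∑ p, (Real.sqrt (m p) * ‖a p‖) * (‖b p‖ / Real.sqrt (m p)) := by
    refine (norm_sum_le _ _).trans (Finset.sum_le_sum fun p _ => ?_)
    rw [norm_mul, RCLike.norm_conj]
    have h2 : 0 < Real.sqrt (m p) := Real.sqrt_pos.2 (hm p)
    refine le_of_eq ?_
    field_simp
  have h2 := Finset.sum_mul_sq_le_sq_mul_sq Finset.univ (fun p => Real.sqrt (m p) * ‖a p‖)
    (fun p => ‖b p‖ / Real.sqrt (m p))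
  have h3 : ‖∑ p, (starRingEnd ℂ) (a p) * b p‖ ^ 2 ≤
      (∑ p, m p * ‖a p‖ ^ 2) * ∑ p, (m p)⁻¹ * ‖b p‖ ^ 2 := by
    have h4 : ‖∑ p, (starRingEnd ℂ) (a p) * b p‖ ^ 2 ≤
        (∑ p, (Real.sqrt (m p) * ‖a p‖) * (‖b p‖ / Real.sqrt (m p))) ^ 2 := by gcongr
    refine h4.trans (h2.trans (le_of_eq ?_))
    congr 1
    · refine Finset.sum_congr rfl fun p _ => ?_
      rw [mul_pow, Real.sq_sqrt (hm p).le]
    · refine Finset.sum_congr rfl fun p _ => ?_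
      rw [div_pow, Real.sq_sqrt (hm p).le]
      ring
  rw [norm_div, norm_pow, Complex.norm_natCast, div_pow]
  unfold pm
  have h5 : (0 : ℝ) < (M : ℝ) ^ d := Mpos
  rw [div_mul_div_comm, div_le_div_iff₀ (by positivity) (by positivity)]
  calc ‖∑ p, (starRingEnd ℂ) (a p) * b p‖ ^ 2 * ((M : ℝ) ^ d * (M : ℝ) ^ d)
      ≤ ((∑ p, m p * ‖a p‖ ^ 2) * ∑ p, (m p)⁻¹ * ‖b p‖ ^ 2) * ((M : ℝ) ^ d * (M : ℝ) ^ d) := by
        gcongr
    _ = _ := by ring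

/-- action of the operator -/
theorem hz_mulVec (V : Tor d M → ℝ) (z : ℂ) (u : Tor d M → ℂ) (x : Tor d M) :
    (hz V z *ᵥ u) x = (2 * (d : ℂ) - z) * u x -
      ∑ i : Fin d, (2 * u x - u (x + ev i) - u (x - ev i)) + (V x : ℂ) * u x := by
  unfold hz
  rw [Matrix.add_mulVec, Pi.add_apply, Matrix.mulVec_diagonal]
  have h1 : ((adj d M).map (fun a : ℝ => (a : ℂ)) *ᵥ u) x =
      ∑ i : Fin d, (u (x + ev i) + u (x - ev i)) := by
    have h0 : ∀ (i : Fin d) (y a : Tor d M), ((if y = a then (1 : ℝ) else 0 : ℝ) : ℂ) * u y =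
        if y = a then u y else 0 := by
      intro i y a
      split_ifs <;> simp
    unfold Matrix.mulVec dotProduct adj
    simp only [Matrix.map_apply, Matrix.of_apply]
    push_cast
    simp only [Finset.sum_mul]
    rw [Finset.sum_comm]
    refine Finset.sum_congr rfl fun i _ => ?_
    simp only [add_mul, Finset.sum_add_distrib]
    have h5 : ∀ a : Tor d M, ∑ y, ((if y = a then (1 : ℝ) else 0 : ℝ) : ℂ) * u y = u a := by
      intro a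
      rw [Finset.sum_congr rfl fun y _ => h0 i y a, Finset.sum_ite_eq' Finset.univ a u]
      simp
    rw [h5, h5]
  have h2 : ∑ i : Fin d, (2 * u x - u (x + ev i) - u (x - ev i)) =
      2 * (d : ℂ) * u x - ∑ i : Fin d, (u (x + ev i) + u (x - ev i)) := by
    have h3 : ∀ i : Fin d, 2 * u x - u (x + ev i) - u (x - ev i) =
        2 * u x - (u (x + ev i) + u (x - ev i)) := fun i => by ring
    simp only [h3]
    rw [Finset.sum_sub_distrib, Finset.sum_const, Finset.card_univ, Fintype.card_fin, nsmul_eq_mul]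
    ring
  rw [h1, h2]
  ring

theorem ft_hz (V : Tor d M → ℝ) (z : ℂ) (u : Tor d M → ℂ) (p : Tor d M) :
    ft (hz V z *ᵥ u) p = ((es p : ℂ) - z) * ft u p + ft (fun x => (V x : ℂ) * u x) p := by
  have h1 : (hz V z *ᵥ u) = fun x => (fun x => (fun x => (2 * (d : ℂ) - z) * u x) x -
      (fun x => ∑ i : Fin d, (2 * u x - u (x + ev i) - u (x - ev i))) x) x +
        (fun x => (V x : ℂ) * u x) x := funext fun x => hz_mulVec V z u x
  rw [h1, ft_add, ft_sub, ft_smul, ft_lap]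
  unfold es
  push_cast
  ring

/-- the weight -/
theorem mt_sq (E η : ℝ) (p : Tor d M) : mt (2 * d - E) η p ^ 2 = (es p - E) ^ 2 + η ^ 2 := by
  unfold Pool.Agent.LE.IR.mt es
  rw [Real.sq_sqrt (by positivity)]
  ring

theorem mt_pos (E : ℝ) {η : ℝ} (hη : 0 < η) (p : Tor d M) : 0 < mt (2 * d - E) η p := by
  unfold Pool.Agent.LE.IR.mt
  apply Real.sqrt_pos.2
  positivity

theorem le_mt (E : ℝ) {η : ℝ} (hη : 0 < η) (p : Tor d M) : η ≤ mt (2 * d - E) η p := by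
  unfold Pool.Agent.LE.IR.mt
  apply Real.le_sqrt_of_sq_le
  nlinarith [sq_nonneg (ds p - (2 * d - E))]

/-- real part of the quadratic expression -/
theorem conj_mul_re (r : ℝ) (c w : ℂ) :
    ((starRingEnd ℂ) ((r : ℂ) * w) * (c * w)).re = r * c.re * ‖w‖ ^ 2 := by
  have h1 : (starRingEnd ℂ) ((r : ℂ) * w) * (c * w) = (r : ℂ) * c * ((starRingEnd ℂ) w * w) := by
    rw [map_mul, Complex.conj_ofReal]
    ring
  have h2 : (starRingEnd ℂ) w * w = ((‖w‖ ^ 2 : ℝ) : ℂ) := by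
    rw [mul_comm, Complex.mul_conj, Complex.normSq_eq_norm_sq]
  rw [h1, h2, Complex.re_mul_ofReal, Complex.re_ofReal_mul]

theorem re_div_M (a : ℂ) : (a / (M : ℂ) ^ d).re = a.re / (M : ℝ) ^ d := by
  have h : (M : ℂ) ^ d = (((M : ℝ) ^ d : ℝ) : ℂ) := by push_cast; rfl
  rw [h, Complex.div_ofReal_re]

/-- (a) -/
theorem parta {V : Tor d M → ℝ} {E η η₁ : ℝ} (hη₁ : 0 < η₁)
    (hFB : FBq E η₁ (1 / 4) V) (u : Tor d M → ℂ) :
    qn E η₁ u ≤ 2 * pm (fun p => (mt (2 * d - E) η₁ p)⁻¹ * ‖ft (hz V ⟨E, η⟩ *ᵥ u) p‖ ^ 2) +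
      2 * η₁ * n2 u := by
  set w := hz V ⟨E, η⟩ *ᵥ u with hw
  set m : Tor d M → ℝ := fun p => mt (2 * d - E) η₁ p with hm
  have hm0 : ∀ p, 0 < m p := fun p => mt_pos E hη₁ p
  set Y2 := qn E η₁ u with hY2
  set W2 := pm (fun p => (m p)⁻¹ * ‖ft w p‖ ^ 2) with hW2
  obtain ⟨g, hg⟩ := surj (d := d) (M := M) fun p => (((es p - E) / m p : ℝ) : ℂ) * ft u p
  have hY0 : 0 ≤ Y2 := pm_nonneg fun p => by
    have := hm0 p
    positivity
  have hW0 : 0 ≤ W2 := pm_nonneg fun p => by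
    have := hm0 p
    positivity
  have hXm : ∀ p, (es p - E) ^ 2 ≤ m p ^ 2 := fun p => by
    rw [hm]
    simp only
    rw [mt_sq]
    nlinarith [sq_nonneg η₁]
  have hgY : pm (fun p => m p * ‖ft g p‖ ^ 2) ≤ Y2 := by
    refine pm_mono fun p => ?_
    rw [hg, norm_mul, mul_pow, Complex.norm_real, Real.norm_eq_abs, sq_abs, div_pow]
    have h1 : (es p - E) ^ 2 / m p ^ 2 ≤ 1 := by
      rw [div_le_one (by have := hm0 p; positivity)]
      exact hXm p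
    have h2 : (es p - E) ^ 2 / m p ^ 2 * ‖ft u p‖ ^ 2 ≤ 1 * ‖ft u p‖ ^ 2 := by gcongr
    rw [one_mul] at h2
    exact mul_le_mul_of_nonneg_left h2 (hm0 p).le
  -- the two scalar products
  have hA : ‖∑ x, (starRingEnd ℂ) (g x) * w x‖ ^ 2 ≤ Y2 * W2 := by
    rw [parseval2]
    refine (cs_pm m hm0 _ _).trans ?_
    gcongr
  have hB : ‖∑ x, (starRingEnd ℂ) (g x) * ((V x : ℂ) * u x)‖ ^ 2 ≤ (1 / 4) ^ 2 * (Y2 * Y2) := by
    refine (hFB u g).trans ?_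
    have h1 : qn E η₁ g ≤ Y2 := hgY
    gcongr
  have hA' : ‖∑ x, (starRingEnd ℂ) (g x) * w x‖ ≤ Y2 / 4 + W2 := by
    refine abs_le_of_sq_le_sq' ?_ (by positivity) |>.2
    nlinarith [sq_nonneg (Y2 / 4 - W2)]
  have hB' : ‖∑ x, (starRingEnd ℂ) (g x) * ((V x : ℂ) * u x)‖ ≤ Y2 / 4 := by
    refine abs_le_of_sq_le_sq' ?_ (by positivity) |>.2
    nlinarith
  -- the identity
  have hI : ((∑ x, (starRingEnd ℂ) (g x) * w x) -
      ∑ x, (starRingEnd ℂ) (g x) * ((V x : ℂ) * u x)).re =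
      pm (fun p => (es p - E) ^ 2 / m p * ‖ft u p‖ ^ 2) := by
    rw [parseval2 w g, parseval2 (fun x => (V x : ℂ) * u x) g, ← sub_div, ← Finset.sum_sub_distrib, re_div_M]
    unfold pm
    congr 1
    rw [Complex.re_sum]
    refine Finset.sum_congr rfl fun p _ => ?_
    rw [hw, ft_hz, ← mul_sub, add_sub_cancel_right, hg, conj_mul_re]
    have h1 : ((es p : ℂ) - (⟨E, η⟩ : ℂ)).re = es p - E := by simp
    rw [h1]
    ring
  have hlow : Y2 - η₁ * n2 u ≤ pm (fun p => (es p - E) ^ 2 / m p * ‖ft u p‖ ^ 2) := by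
    have h1 : n2 u = pm fun p => ‖ft u p‖ ^ 2 := parseval1 u
    rw [h1, ← pm_cmul, hY2]
    unfold qn
    rw [← pm_sub]
    refine pm_mono fun p => ?_
    have h2 : m p - η₁ ≤ (es p - E) ^ 2 / m p := by
      rw [le_div_iff₀ (hm0 p)]
      have h3 : m p ^ 2 = (es p - E) ^ 2 + η₁ ^ 2 := mt_sq E η₁ p
      have h4 : η₁ ≤ m p := le_mt E hη₁ p
      nlinarith
    have h5 : (m p - η₁) * ‖ft u p‖ ^ 2 ≤ (es p - E) ^ 2 / m p * ‖ft u p‖ ^ 2 := by gcongr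
    refine le_trans (le_of_eq ?_) h5
    ring
  have hup : ((∑ x, (starRingEnd ℂ) (g x) * w x) -
      ∑ x, (starRingEnd ℂ) (g x) * ((V x : ℂ) * u x)).re ≤ (Y2 / 4 + W2) + Y2 / 4 := by
    refine (Complex.re_le_norm _).trans ((norm_sub_le _ _).trans ?_)
    linarith
  rw [hI] at hup
  linarith

/-- (b) -/
theorem partb {V : Tor d M → ℝ} {E η₁ : ℝ} (hη₁ : 0 < η₁)
    (hFB : FBq E η₁ (1 / 4) V) (u : Tor d M → ℂ) :
    qn E η₁ u ≤
      16 / 9 * pm (fun p => (mt (2 * d - E) η₁ p)⁻¹ * ‖ft (hz V ⟨E, η₁⟩ *ᵥ u) p‖ ^ 2) := by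
  set w := hz V ⟨E, η₁⟩ *ᵥ u with hw
  set m : Tor d M → ℝ := fun p => mt (2 * d - E) η₁ p with hm
  have hm0 : ∀ p, 0 < m p := fun p => mt_pos E hη₁ p
  set Y2 := qn E η₁ u with hY2
  set W2 := pm (fun p => (m p)⁻¹ * ‖ft w p‖ ^ 2) with hW2
  obtain ⟨g, hg⟩ := surj (d := d) (M := M)
    fun p => (((m p)⁻¹ : ℝ) : ℂ) * (((es p : ℂ) - (⟨E, η₁⟩ : ℂ)) * ft u p)
  have hY0 : 0 ≤ Y2 := pm_nonneg fun p => by
    have := hm0 p
    positivity
  have hW0 : 0 ≤ W2 := pm_nonneg fun p => by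
    have := hm0 p
    positivity
  have hn : ∀ p, ‖((es p : ℂ) - (⟨E, η₁⟩ : ℂ))‖ ^ 2 = m p ^ 2 := fun p => by
    have h3 : m p ^ 2 = (es p - E) ^ 2 + η₁ ^ 2 := mt_sq E η₁ p
    rw [h3, ← Complex.normSq_eq_norm_sq, Complex.normSq_apply]
    simp
    ring
  have hgY : pm (fun p => m p * ‖ft g p‖ ^ 2) = Y2 := by
    rw [hY2]
    unfold qn
    congr 1
    funext p
    rw [hg, norm_mul, norm_mul, mul_pow, mul_pow, hn, Complex.norm_real, Real.norm_eq_abs, sq_abs]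
    have := (hm0 p).ne'
    show m p * (_ ) = m p * ‖ft u p‖ ^ 2
    field_simp
  have hA : ‖∑ x, (starRingEnd ℂ) (g x) * w x‖ ^ 2 ≤ Y2 * W2 := by
    rw [parseval2]
    refine (cs_pm m hm0 _ _).trans ?_
    rw [hgY]
  have hB : ‖∑ x, (starRingEnd ℂ) (g x) * ((V x : ℂ) * u x)‖ ^ 2 ≤ (1 / 4) ^ 2 * (Y2 * Y2) := by
    refine (hFB u g).trans ?_
    have h1 : qn E η₁ g = Y2 := hgY
    rw [h1]
  have hB' : ‖∑ x, (starRingEnd ℂ) (g x) * ((V x : ℂ) * u x)‖ ≤ Y2 / 4 := by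
    refine abs_le_of_sq_le_sq' ?_ (by positivity) |>.2
    nlinarith
  have hI : ((∑ x, (starRingEnd ℂ) (g x) * w x) -
      ∑ x, (starRingEnd ℂ) (g x) * ((V x : ℂ) * u x)).re = Y2 := by
    rw [parseval2 w g, parseval2 (fun x => (V x : ℂ) * u x) g, ← sub_div, ← Finset.sum_sub_distrib, re_div_M, hY2]
    unfold qn pm
    congr 1
    rw [Complex.re_sum]
    refine Finset.sum_congr rfl fun p _ => ?_
    rw [hw, ft_hz, ← mul_sub, add_sub_cancel_right, hg]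
    have h1 : (starRingEnd ℂ) ((((m p)⁻¹ : ℝ) : ℂ) * (((es p : ℂ) - (⟨E, η₁⟩ : ℂ)) * ft u p)) *
        (((es p : ℂ) - (⟨E, η₁⟩ : ℂ)) * ft u p) =
        (starRingEnd ℂ) ((((m p)⁻¹ : ℝ) : ℂ) * (((es p : ℂ) - (⟨E, η₁⟩ : ℂ)) * ft u p)) *
        (1 * (((es p : ℂ) - (⟨E, η₁⟩ : ℂ)) * ft u p)) := by rw [one_mul]
    rw [h1, conj_mul_re, Complex.one_re, mul_one, norm_mul, mul_pow, hn]
    have := (hm0 p).ne'
    show (m p)⁻¹ * (m p ^ 2 * ‖ft u p‖ ^ 2) = m p * ‖ft u p‖ ^ 2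
    field_simp
  have hup : ((∑ x, (starRingEnd ℂ) (g x) * w x) -
      ∑ x, (starRingEnd ℂ) (g x) * ((V x : ℂ) * u x)).re ≤
      ‖∑ x, (starRingEnd ℂ) (g x) * w x‖ + Y2 / 4 := by
    refine (Complex.re_le_norm _).trans ((norm_sub_le _ _).trans ?_)
    linarith
  rw [hI] at hup
  rcases eq_or_lt_of_le hY0 with h0 | h0
  · rw [← h0]
    positivity
  · have h1 : (3 / 4 * Y2) ^ 2 ≤ Y2 * W2 := by
      refine le_trans ?_ hA
      have h2 : 3 / 4 * Y2 ≤ ‖∑ x, (starRingEnd ℂ) (g x) * w x‖ := by linarith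
      gcongr
    have h3 : Y2 * (9 / 16 * Y2) ≤ Y2 * W2 := by
      refine le_trans (le_of_eq ?_) h1
      ring
    have h4 := le_of_mul_le_mul_left h3 h0
    linarith

theorem ft_single (x p : Tor d M) :
    ft (Pi.single x (1 : ℂ)) p = (starRingEnd ℂ) (ec p x) := by
  unfold ft
  rw [Finset.sum_eq_single x]
  · rw [Pi.single_eq_same, mul_one]
  · intro y _ hy
    rw [Pi.single_eq_of_ne hy, mul_zero]
  · intro h
    exact absurd (Finset.mem_univ x) h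

theorem res (hRal : RalStmt) : ResStmt := by
  intro d M _ V E η η₁ A B hη hηη₁ hA hSob hB hFB
  have hη₁ : 0 < η₁ := hη.trans_le hηη₁
  obtain ⟨-, hsym, -, hnor, hward, -, -, hmono, -⟩ := hRal d M V ⟨E, η⟩ hη
  obtain ⟨⟨hz1, -⟩, -⟩ := hRal d M V ⟨E, η₁⟩ hη₁
  obtain ⟨⟨hz0, -⟩, -⟩ := hRal d M V ⟨E, η⟩ hη
  have hm0 : ∀ p : Tor d M, 0 < mt (2 * d - E) η₁ p := fun p => mt_pos E hη₁ p
  have hB0 : 0 ≤ B := le_trans (pm_nonneg fun p => (inv_pos.2 (hm0 p)).le) hB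
  -- the columns
  have hcol : ∀ (z : ℂ) (x y : Tor d M), (rs V z *ᵥ Pi.single x (1 : ℂ)) y = rs V z y x := by
    intro z x y
    rw [Matrix.mulVec_single_one]
    rfl
  have hW : ∀ x : Tor d M, pm (fun p => (mt (2 * d - E) η₁ p)⁻¹ *
      ‖ft (Pi.single x (1 : ℂ)) p‖ ^ 2) ≤ B := by
    intro x
    refine le_trans (le_of_eq ?_) hB
    congr 1
    funext p
    rw [ft_single, RCLike.norm_conj, ec_norm]
    ring
  have hinv : ∀ (z : ℂ), hz V z * rs V z = 1 → ∀ w : Tor d M → ℂ,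
      hz V z *ᵥ (rs V z *ᵥ w) = w := by
    intro z h w
    rw [Matrix.mulVec_mulVec, h, Matrix.one_mulVec]
  -- (1)
  have c1 : ∀ x, (rs V ⟨E, η⟩ x x).im ≤ 4 / 3 * B * (η₁ / η) := by
    intro x
    have h1 : (rs V ⟨E, η₁⟩ x x).im ≤ 4 / 3 * B := by
      set u := rs V ⟨E, η₁⟩ *ᵥ Pi.single x (1 : ℂ) with hu
      have h2 := partb hη₁ hFB u
      rw [hu, hinv _ hz1, ← hu] at h2
      have h3 : qn E η₁ u ≤ 16 / 9 * B := h2.trans (by
        have := hW x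
        gcongr)
      have h4 : ‖∑ y, (starRingEnd ℂ) (u y) * (Pi.single x (1 : ℂ) : Tor d M → ℂ) y‖ ^ 2 ≤
          (16 / 9 * B) * B := by
        rw [parseval2]
        refine (cs_pm (fun p => mt (2 * d - E) η₁ p) hm0 _ _).trans ?_
        have h5 : pm (fun p => mt (2 * d - E) η₁ p * ‖ft u p‖ ^ 2) ≤ 16 / 9 * B := h3
        have h6 : 0 ≤ pm (fun p => (mt (2 * d - E) η₁ p)⁻¹ * ‖ft (Pi.single x (1 : ℂ)) p‖ ^ 2) :=
          pm_nonneg fun p => by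
            have := hm0 p
            positivity
        have h7 := hW x
        exact mul_le_mul h5 h7 h6 (by positivity)
      have h5 : ∑ y, (starRingEnd ℂ) (u y) * (Pi.single x (1 : ℂ) : Tor d M → ℂ) y =
          (starRingEnd ℂ) (rs V ⟨E, η₁⟩ x x) := by
        rw [Finset.sum_eq_single x]
        · rw [Pi.single_eq_same, mul_one, hu, hcol]
        · intro y _ hy
          rw [Pi.single_eq_of_ne hy, mul_zero]
        · intro h
          exact absurd (Finset.mem_univ x) h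
      rw [h5, RCLike.norm_conj] at h4
      have h6 : ‖rs V ⟨E, η₁⟩ x x‖ ≤ 4 / 3 * B := by
        refine abs_le_of_sq_le_sq' ?_ (by positivity) |>.2
        refine h4.trans (le_of_eq ?_)
        ring
      exact ((le_abs_self _).trans (Complex.abs_im_le_norm _)).trans h6
    calc (rs V ⟨E, η⟩ x x).im ≤ η₁ / η * (rs V ⟨E, η₁⟩ x x).im := hmono E η η₁ x hη hηη₁
      _ ≤ η₁ / η * (4 / 3 * B) := by gcongr
      _ = 4 / 3 * B * (η₁ / η) := by ring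
  -- (2)
  have c2 : ∀ x, ∑ y, ‖rs V ⟨E, η⟩ x y‖ ^ 2 ≤ 4 / 3 * B * (η₁ / η ^ 2) := by
    intro x
    rw [hward x]
    show (rs V ⟨E, η⟩ x x).im / η ≤ _
    rw [div_le_iff₀ hη]
    refine (c1 x).trans (le_of_eq ?_)
    field_simp
  -- (4)
  have hgen : ∀ w : Tor d M → ℂ, n4 (rs V ⟨E, η⟩ *ᵥ w) ≤
      A * (2 * pm (fun p => (mt (2 * d - E) η₁ p)⁻¹ * ‖ft w p‖ ^ 2) +
        2 * η₁ * n2 (rs V ⟨E, η⟩ *ᵥ w)) := by
    intro w
    have h1 := parta (η := η) hη₁ hFB (rs V ⟨E, η⟩ *ᵥ w)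
    rw [hinv _ hz0] at h1
    exact (hSob _).trans (mul_le_mul_of_nonneg_left h1 hA)
  have c4 : ∀ w : Tor d M → ℂ, n4 (rs V ⟨E, η⟩ *ᵥ w) ≤ 8 * A * (η₁ / η ^ 2) * n2 w := by
    intro w
    refine (hgen w).trans ?_
    have h1 : pm (fun p => (mt (2 * d - E) η₁ p)⁻¹ * ‖ft w p‖ ^ 2) ≤ η₁⁻¹ * n2 w := by
      have h2 : n2 w = pm fun p => ‖ft w p‖ ^ 2 := parseval1 w
      rw [h2, ← pm_cmul]
      refine pm_mono fun p => ?_
      have h3 : (mt (2 * d - E) η₁ p)⁻¹ ≤ η₁⁻¹ := inv_anti₀ hη₁ (le_mt E hη₁ p)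
      gcongr
    have h2 : n2 (rs V ⟨E, η⟩ *ᵥ w) ≤ n2 w / η ^ 2 := (hnor w).1
    have hn0 : 0 ≤ n2 w := Finset.sum_nonneg fun x _ => by positivity
    have h3 : η₁⁻¹ ≤ η₁ / η ^ 2 := by
      rw [inv_le_iff_one_le_mul₀ hη₁, div_mul_eq_mul_div, le_div_iff₀ (by positivity)]
      nlinarith
    have h4 : 2 * pm (fun p => (mt (2 * d - E) η₁ p)⁻¹ * ‖ft w p‖ ^ 2) +
        2 * η₁ * n2 (rs V ⟨E, η⟩ *ᵥ w) ≤ 8 * (η₁ / η ^ 2) * n2 w := by
      have h5 : η₁⁻¹ * n2 w ≤ η₁ / η ^ 2 * n2 w := by gcongr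
      have h6 : 2 * η₁ * n2 (rs V ⟨E, η⟩ *ᵥ w) ≤ 2 * η₁ * (n2 w / η ^ 2) := by gcongr
      have h7 : 2 * η₁ * (n2 w / η ^ 2) = 2 * (η₁ / η ^ 2 * n2 w) := by ring
      have h8 : 0 ≤ η₁ / η ^ 2 * n2 w := by positivity
      linarith
    calc A * (2 * pm (fun p => (mt (2 * d - E) η₁ p)⁻¹ * ‖ft w p‖ ^ 2) +
        2 * η₁ * n2 (rs V ⟨E, η⟩ *ᵥ w)) ≤ A * (8 * (η₁ / η ^ 2) * n2 w) := by gcongr
      _ = _ := by ring
  refine ⟨c1, c2, ?_, c4, ?_⟩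
  · -- (3)
    intro x
    have h1 := hgen (Pi.single x (1 : ℂ))
    have h2 : n4 (rs V ⟨E, η⟩ *ᵥ Pi.single x (1 : ℂ)) = Real.sqrt (∑ y, ‖rs V ⟨E, η⟩ x y‖ ^ 4) := by
      unfold n4
      congr 1
      refine Finset.sum_congr rfl fun y _ => ?_
      rw [hcol, hsym]
    have h3 : n2 (rs V ⟨E, η⟩ *ᵥ Pi.single x (1 : ℂ)) ≤ 4 / 3 * B * (η₁ / η ^ 2) := by
      refine le_trans (le_of_eq ?_) (c2 x)
      unfold n2
      refine Finset.sum_congr rfl fun y _ => ?_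
      rw [hcol, hsym]
    rw [h2] at h1
    refine h1.trans ?_
    have h4 := hW x
    have h5 : (1 : ℝ) ≤ (η₁ / η) ^ 2 := one_le_pow₀ ((one_le_div₀ hη).2 hηη₁)
    have h6 : 2 * η₁ * n2 (rs V ⟨E, η⟩ *ᵥ Pi.single x (1 : ℂ)) ≤ 8 / 3 * B * (η₁ / η) ^ 2 := by
      calc 2 * η₁ * n2 (rs V ⟨E, η⟩ *ᵥ Pi.single x (1 : ℂ)) ≤
          2 * η₁ * (4 / 3 * B * (η₁ / η ^ 2)) := by gcongr
        _ = 8 / 3 * B * (η₁ / η) ^ 2 := by
            rw [div_pow]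
            ring
    have h7 : 2 * B ≤ 2 * B * (η₁ / η) ^ 2 := by nlinarith
    have h8 : 2 * pm (fun p => (mt (2 * d - E) η₁ p)⁻¹ * ‖ft (Pi.single x (1 : ℂ)) p‖ ^ 2) +
        2 * η₁ * n2 (rs V ⟨E, η⟩ *ᵥ Pi.single x (1 : ℂ)) ≤ 10 * B * (η₁ / η) ^ 2 := by
      have h9 : 0 ≤ B * (η₁ / η) ^ 2 := by positivity
      nlinarith
    calc A * (2 * pm (fun p => (mt (2 * d - E) η₁ p)⁻¹ * ‖ft (Pi.single x (1 : ℂ)) p‖ ^ 2) +
        2 * η₁ * n2 (rs V ⟨E, η⟩ *ᵥ Pi.single x (1 : ℂ))) ≤ A * (10 * B * (η₁ / η) ^ 2) := by gcongr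
      _ = 10 * A * B * (η₁ / η) ^ 2 := by ring
  · -- (5)
    intro w
    have h1 : ∀ x, ((rs V ⟨E, η⟩)ᴴ *ᵥ w) x =
        (starRingEnd ℂ) ((rs V ⟨E, η⟩ *ᵥ fun y => (starRingEnd ℂ) (w y)) x) := by
      intro x
      unfold Matrix.mulVec dotProduct
      rw [map_sum]
      refine Finset.sum_congr rfl fun y _ => ?_
      show (starRingEnd ℂ) (rs V ⟨E, η⟩ y x) * w y =
        (starRingEnd ℂ) (rs V ⟨E, η⟩ x y * (starRingEnd ℂ) (w y))
      rw [map_mul, Complex.conj_conj, hsym x y]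
    have h2 : n4 ((rs V ⟨E, η⟩)ᴴ *ᵥ w) = n4 (rs V ⟨E, η⟩ *ᵥ fun y => (starRingEnd ℂ) (w y)) := by
      unfold n4
      congr 1
      refine Finset.sum_congr rfl fun y _ => ?_
      rw [h1, RCLike.norm_conj]
    have h3 : n2 (fun y => (starRingEnd ℂ) (w y)) = n2 w := by
      unfold n2
      refine Finset.sum_congr rfl fun y _ => ?_
      rw [RCLike.norm_conj]
    rw [h2, ← h3]
    exact c4 _

end Pool.Agent.LE.QD.H70
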