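import Pool.Agent.LE.StmtsQD

set_option autoImplicit false

open MeasureTheory ProbabilityTheory Function Filter

open scoped ENNReal BigOperators Topology NNReal ComplexOrder Matrix

noncomputable section

namespace Pool.Agent.LE.QD.H70

open Pool.Agent.Anderson hiding box mem_box card_box
open Pool.Agent.Loc Pool.Agent.Mob Pool.Agent.Helper54.Bal
  Pool.Agent.Helper96.EXP Pool.Agent.BED
open Pool.Agent.LE.MN Pool.Agent.LE.CL Pool.Agent.LE.IR

theorem lcc (hGC : GCStmt) : LccStmt := by
  intro ι _ v S F B ℓ p r hF hB hℓ hLip hS hp hr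
  set μ : Measure (ι → ℝ) := Measure.pi fun _ : ι => gaussianReal 0 v with hμ
  have hB0 : 0 ≤ B := (abs_nonneg _).trans (hB 0)
  -- the extension
  have hL : LipschitzOnWith ℓ.toNNReal (fun x : EuclideanSpace ℝ ι => F x.ofLp)
      {x | x.ofLp ∈ S} := by
    refine LipschitzOnWith.of_dist_le_mul fun x hx y hy => ?_
    rw [Real.dist_eq, Real.coe_toNNReal _ hℓ.le, EuclideanSpace.dist_eq]
    refine (hLip _ hx _ hy).trans (le_of_eq ?_)
    congr 3
    funext i
    rw [Real.dist_eq, sq_abs]
  obtain ⟨g, hg, hgS⟩ := hL.extend_real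
  set F₁ : (ι → ℝ) → ℝ := fun V => max (-B) (min B (g (WithLp.toLp 2 V))) with hF₁
  have hclip : ∀ a b : ℝ, |max (-B) (min B a) - max (-B) (min B b)| ≤ |a - b| := by
    intro a b
    have h1 := abs_max_sub_max_le_max (-B) (min B a) (-B) (min B b)
    have h2 := abs_min_sub_min_le_max B a B b
    have h3 : max |-B - -B| |min B a - min B b| ≤ |min B a - min B b| :=
      max_le (by rw [sub_self, abs_zero]; exact abs_nonneg _) le_rfl
    have h4 : max |B - B| |a - b| ≤ |a - b| :=
      max_le (by rw [sub_self, abs_zero]; exact abs_nonneg _) le_rfl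
    exact h1.trans (h3.trans (h2.trans h4))
  have hF₁L : ∀ x y, |F₁ x - F₁ y| ≤ ℓ * Real.sqrt (∑ i, (x i - y i) ^ 2) := by
    intro x y
    refine (hclip _ _).trans ?_
    have h1 := hg.dist_le_mul (WithLp.toLp 2 x) (WithLp.toLp 2 y)
    rw [Real.dist_eq, Real.coe_toNNReal _ hℓ.le, EuclideanSpace.dist_eq] at h1
    refine h1.trans (le_of_eq ?_)
    congr 3
    funext i
    rw [Real.dist_eq, sq_abs]
  have hF₁B : ∀ V, |F₁ V| ≤ B := by
    intro V
    rw [abs_le]
    exact ⟨le_max_left _ _, max_le (by linarith) (min_le_left _ _)⟩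
  have hF₁S : ∀ V ∈ S, F₁ V = F V := by
    intro V hV
    have h1 : F V = g (WithLp.toLp 2 V) := hgS (show (WithLp.toLp 2 V).ofLp ∈ S from hV)
    have h2 := abs_le.1 (hB V)
    show max (-B) (min B (g (WithLp.toLp 2 V))) = F V
    rw [← h1, min_eq_right h2.2, max_eq_right h2.1]
  have hF₁m : Measurable F₁ := by
    have h1 : Continuous fun V : ι → ℝ => g (WithLp.toLp 2 V) :=
      hg.continuous.comp (PiLp.continuous_toLp 2 _)
    exact (continuous_const.max (continuous_const.min h1)).measurable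
  -- the means
  set T : Set (ι → ℝ) := {V | F V ≠ F₁ V} with hT
  have hTm : MeasurableSet T := (measurableSet_eq_fun hF hF₁m).compl
  have hTS : T ⊆ Sᶜ := fun V hV hVS => hV (hF₁S V hVS).symm
  have hμT : (μ T).toReal ≤ p := by
    refine ENNReal.toReal_le_of_le_ofReal hp ?_
    exact (measure_mono hTS).trans hS
  have hprob : IsProbabilityMeasure μ := by
    rw [hμ]
    infer_instance
  have hFi : Integrable F μ := Integrable.of_bound hF.aestronglyMeasurable B
    (Eventually.of_forall fun V => by rw [Real.norm_eq_abs]; exact hB V)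
  have hF₁i : Integrable F₁ μ := Integrable.of_bound hF₁m.aestronglyMeasurable B
    (Eventually.of_forall fun V => by rw [Real.norm_eq_abs]; exact hF₁B V)
  have hmean : |(∫ V, F V ∂μ) - ∫ V, F₁ V ∂μ| ≤ 2 * B * p := by
    rw [← integral_sub hFi hF₁i]
    have h1 : ∀ V, ‖F V - F₁ V‖ ≤ T.indicator (fun _ => 2 * B) V := by
      intro V
      by_cases hV : V ∈ T
      · rw [Set.indicator_of_mem hV, Real.norm_eq_abs]
        have h2 := abs_le.1 (hB V)
        have h3 := abs_le.1 (hF₁B V)
        rw [abs_le]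
        constructor <;> linarith
      · rw [Set.indicator_of_notMem hV]
        have h2 : F V = F₁ V := by
          by_contra h
          exact hV h
        rw [h2, sub_self, norm_zero]
    have h2 : Integrable (T.indicator fun _ => 2 * B) μ :=
      (integrable_const (2 * B)).indicator hTm
    have h3 : |∫ V, (F V - F₁ V) ∂μ| ≤ ∫ V, T.indicator (fun _ => 2 * B) V ∂μ := by
      rw [← Real.norm_eq_abs]
      exact norm_integral_le_of_norm_le h2 (Eventually.of_forall h1)
    rw [integral_indicator_const _ hTm, smul_eq_mul] at h3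
    refine h3.trans ?_
    have h4 : μ.real T ≤ p := hμT
    nlinarith
  refine (measure_mono ?_).trans ((hGC ι v F₁ ℓ hℓ hF₁L r hr).trans (le_of_eq ?_))
  · rintro V ⟨hVS, hV⟩
    show r ≤ |F₁ V - ∫ W, F₁ W ∂μ|
    rw [hF₁S V hVS]
    have h1 : |F V - ∫ W, F W ∂μ| ≤ |F V - ∫ W, F₁ W ∂μ| + |(∫ W, F W ∂μ) - ∫ W, F₁ W ∂μ| := by
      have h2 : F V - ∫ W, F W ∂μ = (F V - ∫ W, F₁ W ∂μ) - ((∫ W, F W ∂μ) - ∫ W, F₁ W ∂μ) := by
        ring
      rw [h2]
      exact abs_sub _ _
    linarith
  · rw [neg_div]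

end Pool.Agent.LE.QD.H70
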