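import Pool.Agent.Helper70_LQD.RES
import Pool.Agent.Helper17_Anderson.Kappa

/-!
# SOB, part 1: the Laplace transform of the propagator, the form of one dyadic block
-/

set_option autoImplicit false

open MeasureTheory ProbabilityTheory Function Filter

open scoped ENNReal BigOperators Topology NNReal ComplexOrder Matrix

noncomputable section

namespace Pool.Agent.LE.QD.H70

open Pool.Agent.Anderson hiding box mem_box card_box
open Pool.Agent.Loc Pool.Agent.Mob Pool.Agent.Helper54.Bal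
  Pool.Agent.Helper96.EXP Pool.Agent.BED
open Pool.Agent.LE.MN Pool.Agent.LE.CL Pool.Agent.LE.IR Pool.Agent.LE.IR.H54

variable {d M : ℕ} [NeZero M]

/-- the truncated Laplace transform -/
theorem laplace_le {a : ℝ} (ha : 0 < a) (X T : ℝ) :
    Pool.Agent.Anderson.ker a X ≤ (∫ t in (0 : ℝ)..T, Real.exp (-(a * t)) * Real.cos (t * X)) +
      Real.exp (-(a * T)) / a := by
  set D : ℝ := X ^ 2 + a ^ 2 with hD
  have hD0 : 0 < D := by positivity
  have h1 : ∀ t : ℝ, HasDerivAt
      (fun t : ℝ => Real.exp (-(a * t)) * (X * Real.sin (t * X) - a * Real.cos (t * X)) / D)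
      (Real.exp (-(a * t)) * Real.cos (t * X)) t := by
    intro t
    have e1 : HasDerivAt (fun t : ℝ => Real.exp (-(a * t))) (Real.exp (-(a * t)) * (-a)) t := by
      have e00 : HasDerivAt (fun t : ℝ => a * t) a t := by
        have := (hasDerivAt_id t).const_mul a
        rwa [mul_one] at this
      exact e00.neg.exp
    have e2 : HasDerivAt (fun t : ℝ => t * X) X t := by
      have := (hasDerivAt_id t).mul_const X
      simpa using this
    have e3 : HasDerivAt (fun t : ℝ => X * Real.sin (t * X) - a * Real.cos (t * X))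
        (X * (Real.cos (t * X) * X) - a * (-Real.sin (t * X) * X)) t :=
      (e2.sin.const_mul X).sub (e2.cos.const_mul a)
    have e4 := (e1.mul e3).div_const D
    have e5 : (Real.exp (-(a * t)) * -a * (X * Real.sin (t * X) - a * Real.cos (t * X)) +
        Real.exp (-(a * t)) * (X * (Real.cos (t * X) * X) - a * (-Real.sin (t * X) * X))) / D =
        Real.exp (-(a * t)) * Real.cos (t * X) := by
      rw [div_eq_iff hD0.ne', hD]
      ring
    rw [e5] at e4
    exact e4
  have h2 : ∫ t in (0 : ℝ)..T, Real.exp (-(a * t)) * Real.cos (t * X) =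
      Real.exp (-(a * T)) * (X * Real.sin (T * X) - a * Real.cos (T * X)) / D -
        Real.exp (-(a * 0)) * (X * Real.sin (0 * X) - a * Real.cos (0 * X)) / D :=
    intervalIntegral.integral_eq_sub_of_hasDerivAt (fun t _ => h1 t)
      (Continuous.intervalIntegrable (by fun_prop) _ _)
  rw [h2]
  simp only [mul_zero, neg_zero, Real.exp_zero, zero_mul, Real.sin_zero, Real.cos_zero, mul_one,
    one_mul, zero_sub]
  have h3 : |X * Real.sin (T * X) - a * Real.cos (T * X)| ≤ Real.sqrt D := by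
    apply Real.abs_le_sqrt
    have := Real.sin_sq_add_cos_sq (T * X)
    nlinarith [sq_nonneg (X * Real.cos (T * X) + a * Real.sin (T * X))]
  have h4 : a ≤ Real.sqrt D := by
    apply Real.le_sqrt_of_sq_le
    nlinarith [sq_nonneg X]
  have h5 : |X * Real.sin (T * X) - a * Real.cos (T * X)| / D ≤ 1 / a := by
    rw [div_le_div_iff₀ hD0 ha, one_mul]
    have h6 : Real.sqrt D * Real.sqrt D = D := Real.mul_self_sqrt hD0.le
    calc |X * Real.sin (T * X) - a * Real.cos (T * X)| * a ≤ Real.sqrt D * Real.sqrt D := by gcongr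
      _ = D := h6
  have h6 : -(Real.exp (-(a * T)) / a) ≤
      Real.exp (-(a * T)) * (X * Real.sin (T * X) - a * Real.cos (T * X)) / D := by
    have h7 := neg_abs_le (X * Real.sin (T * X) - a * Real.cos (T * X))
    have h8 : 0 < Real.exp (-(a * T)) := Real.exp_pos _
    have h9 : -(Real.exp (-(a * T)) * (|X * Real.sin (T * X) - a * Real.cos (T * X)| / D)) ≤
        Real.exp (-(a * T)) * (X * Real.sin (T * X) - a * Real.cos (T * X)) / D := by
      rw [mul_div_assoc, ← mul_neg, ← neg_div]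
      gcongr
    refine le_trans ?_ h9
    rw [neg_le_neg_iff]
    calc Real.exp (-(a * T)) * (|X * Real.sin (T * X) - a * Real.cos (T * X)| / D) ≤
        Real.exp (-(a * T)) * (1 / a) := by gcongr
      _ = Real.exp (-(a * T)) / a := by ring
  unfold Pool.Agent.Anderson.ker
  rw [← hD]
  have h7 : (-a) / D = -(a / D) := neg_div _ _
  linarith

/-- the kernel of `cos (t (adj - E))` -/
def kt (E t : ℝ) (y : Tor d M) : ℂ :=
  (∑ p, ec p y * ((Real.cos (t * (es p - E)) : ℝ) : ℂ)) / (M : ℂ) ^ d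

theorem kt_cont (E : ℝ) (y : Tor d M) : Continuous fun t => kt E t y := by
  unfold kt
  refine Continuous.div_const (continuous_finsetSum _ fun p _ => ?_) _
  exact continuous_const.mul (Complex.continuous_ofReal.comp (by fun_prop))

theorem kt_norm_le (E t : ℝ) (y : Tor d M) :
    ‖kt E t y‖ ≤ ‖(∑ p, ec p y * Complex.exp (Complex.I * ((t * es p : ℝ) : ℂ))) / (M : ℂ) ^ d‖ +
      ‖(∑ p, ec p y * Complex.exp (-(Complex.I * ((t * es p : ℝ) : ℂ)))) / (M : ℂ) ^ d‖ := by
  set c : ℂ := Complex.exp (-(((t * E : ℝ) : ℂ) * Complex.I)) with hc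
  set c' : ℂ := Complex.exp (((t * E : ℝ) : ℂ) * Complex.I) with hc'
  have hcn : ‖c‖ = 1 := by
    rw [hc, ← neg_mul, ← Complex.ofReal_neg]
    exact Complex.norm_exp_ofReal_mul_I _
  have hcn' : ‖c'‖ = 1 := Complex.norm_exp_ofReal_mul_I _
  have h1 : kt E t y = 1 / 2 * (c *
      ((∑ p, ec p y * Complex.exp (Complex.I * ((t * es p : ℝ) : ℂ))) / (M : ℂ) ^ d)) +
      1 / 2 * (c' *
      ((∑ p, ec p y * Complex.exp (-(Complex.I * ((t * es p : ℝ) : ℂ)))) / (M : ℂ) ^ d)) := by
    unfold kt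
    rw [← mul_div_assoc, ← mul_div_assoc, ← mul_div_assoc, ← mul_div_assoc, ← add_div,
      Finset.mul_sum, Finset.mul_sum, Finset.mul_sum, Finset.mul_sum, ← Finset.sum_add_distrib]
    congr 1
    refine Finset.sum_congr rfl fun p _ => ?_
    have h2 : ((Real.cos (t * (es p - E)) : ℝ) : ℂ) =
        (c * Complex.exp (Complex.I * ((t * es p : ℝ) : ℂ)) +
          c' * Complex.exp (-(Complex.I * ((t * es p : ℝ) : ℂ)))) / 2 := by
      rw [Complex.ofReal_cos, Complex.cos, hc, hc', ← Complex.exp_add, ← Complex.exp_add]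
      congr 3 <;> · push_cast; ring_nf
    rw [h2]
    ring
  rw [h1]
  refine (norm_add_le _ _).trans ?_
  rw [norm_mul, norm_mul, norm_mul, norm_mul, hcn, hcn']
  have h3 : ‖(1 / 2 : ℂ)‖ = 1 / 2 := by simp
  rw [h3, one_mul, one_mul]
  have h4 := norm_nonneg ((∑ p, ec p y * Complex.exp (Complex.I * ((t * es p : ℝ) : ℂ))) /
    (M : ℂ) ^ d)
  have h5 := norm_nonneg ((∑ p, ec p y * Complex.exp (-(Complex.I * ((t * es p : ℝ) : ℂ)))) /
    (M : ℂ) ^ d)
  linarith

/-- the form of `cos (t (adj - E))` -/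
theorem form_cos (E t : ℝ) (g h : Tor d M → ℂ) :
    ∑ x, ∑ y, (starRingEnd ℂ) (g x) * (kt E t (x - y) * h y) =
      (∑ p, (starRingEnd ℂ) (ft g p) * (((Real.cos (t * (es p - E)) : ℝ) : ℂ) * ft h p)) /
        (M : ℂ) ^ d := by
  unfold kt ft
  rw [eq_div_iff Mne, Finset.sum_mul]
  have h1 : ∀ x, (∑ y, (starRingEnd ℂ) (g x) * ((∑ p, ec p (x - y) *
      ((Real.cos (t * (es p - E)) : ℝ) : ℂ)) / (M : ℂ) ^ d * h y)) * (M : ℂ) ^ d =
      ∑ p, ∑ y, (starRingEnd ℂ) (g x) * (ec p x * (starRingEnd ℂ) (ec p y) *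
      ((Real.cos (t * (es p - E)) : ℝ) : ℂ)) * h y := by
    intro x
    rw [Finset.sum_comm, Finset.sum_mul]
    refine Finset.sum_congr rfl fun y _ => ?_
    rw [← Finset.sum_mul, ← Finset.mul_sum]
    simp only [ec_sub]
    have hM : (M : ℂ) ^ d ≠ 0 := Mne
    field_simp
  rw [Finset.sum_congr rfl fun x _ => h1 x, Finset.sum_comm]
  refine Finset.sum_congr rfl fun p _ => ?_
  rw [map_sum, Finset.sum_mul]
  refine Finset.sum_congr rfl fun x _ => ?_
  rw [map_mul, Complex.conj_conj, Finset.mul_sum, Finset.mul_sum]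
  refine Finset.sum_congr rfl fun y _ => ?_
  ring

theorem form_cos_norm_le (E t : ℝ) (g h : Tor d M → ℂ) :
    ‖(∑ p, (starRingEnd ℂ) (ft g p) * (((Real.cos (t * (es p - E)) : ℝ) : ℂ) * ft h p)) /
        (M : ℂ) ^ d‖ ≤ Real.sqrt (n2 g) * Real.sqrt (n2 h) := by
  have h1 := cs_pm (fun _ : Tor d M => (1 : ℝ)) (fun _ => one_pos) (ft g)
    (fun p => ((Real.cos (t * (es p - E)) : ℝ) : ℂ) * ft h p)
  have h2 : pm (fun p => 1 * ‖ft g p‖ ^ 2) = n2 g := by
    simp only [one_mul]
    exact (Pool.Agent.LE.IR.H54.parseval1 g).symm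
  have h3 : pm (fun p => (1 : ℝ)⁻¹ * ‖((Real.cos (t * (es p - E)) : ℝ) : ℂ) * ft h p‖ ^ 2) ≤
      n2 h := by
    have h4 : n2 h = pm fun p => ‖ft h p‖ ^ 2 := Pool.Agent.LE.IR.H54.parseval1 h
    rw [h4]
    refine pm_mono fun p => ?_
    rw [inv_one, one_mul, norm_mul, mul_pow, Complex.norm_real, Real.norm_eq_abs, sq_abs]
    have h5 : Real.cos (t * (es p - E)) ^ 2 ≤ 1 := Real.cos_sq_le_one _
    have h6 : Real.cos (t * (es p - E)) ^ 2 * ‖ft h p‖ ^ 2 ≤ 1 * ‖ft h p‖ ^ 2 := by gcongr
    rwa [one_mul] at h6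
  rw [h2] at h1
  have hg : 0 ≤ n2 g := Finset.sum_nonneg fun x _ => by positivity
  have hh : 0 ≤ n2 h := Finset.sum_nonneg fun x _ => by positivity
  rw [← Real.sqrt_mul hg]
  apply Real.le_sqrt_of_sq_le
  refine h1.trans ?_
  gcongr

/-- the kernel of one block -/
def kb (E a T : ℝ) (x y : Tor d M) : ℂ :=
  ∫ t in T..2 * T, ((Real.exp (-(a * t)) : ℝ) : ℂ) * kt E t (x - y)

theorem kb_form (E a T : ℝ) (g h : Tor d M → ℂ) :
    ∑ x, ∑ y, (starRingEnd ℂ) (g x) * (kb E a T x y * h y) =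
      ∫ t in T..2 * T, ((Real.exp (-(a * t)) : ℝ) : ℂ) *
        ((∑ p, (starRingEnd ℂ) (ft g p) * (((Real.cos (t * (es p - E)) : ℝ) : ℂ) * ft h p)) /
        (M : ℂ) ^ d) := by
  have hc : Continuous fun t : ℝ => ((Real.exp (-(a * t)) : ℝ) : ℂ) :=
    Complex.continuous_ofReal.comp (by fun_prop)
  have h1 : ∀ t : ℝ, ((Real.exp (-(a * t)) : ℝ) : ℂ) *
        ((∑ p, (starRingEnd ℂ) (ft g p) * (((Real.cos (t * (es p - E)) : ℝ) : ℂ) * ft h p)) /
        (M : ℂ) ^ d) = ∑ x, ∑ y, (starRingEnd ℂ) (g x) *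
          ((((Real.exp (-(a * t)) : ℝ) : ℂ) * kt E t (x - y)) * h y) := by
    intro t
    rw [← form_cos, Finset.mul_sum]
    refine Finset.sum_congr rfl fun x _ => ?_
    rw [Finset.mul_sum]
    exact Finset.sum_congr rfl fun y _ => by ring
  simp only [h1]
  rw [intervalIntegral.integral_finsetSum]
  · refine Finset.sum_congr rfl fun x _ => ?_
    rw [intervalIntegral.integral_finsetSum]
    · refine Finset.sum_congr rfl fun y _ => ?_
      rw [intervalIntegral.integral_const_mul, intervalIntegral.integral_mul_const]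
      rfl
    · intro y _
      exact (continuous_const.mul ((hc.mul (kt_cont E (x - y))).mul
        continuous_const)).intervalIntegrable _ _
  · intro x _
    refine Continuous.intervalIntegrable (continuous_finsetSum _ fun y _ => ?_) _ _
    exact continuous_const.mul ((hc.mul (kt_cont E (x - y))).mul continuous_const)

theorem kb_op {E a T : ℝ} (ha : 0 < a) (hT : 0 ≤ T) (g h : Tor d M → ℂ) :
    ‖∑ x, ∑ y, (starRingEnd ℂ) (g x) * (kb E a T x y * h y)‖ ≤
      (T * Real.exp (-(a * T))) * (Real.sqrt (n2 g) * Real.sqrt (n2 h)) := by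
  rw [kb_form]
  have h1 := intervalIntegral.norm_integral_le_of_norm_le_const (a := T) (b := 2 * T)
    (C := Real.exp (-(a * T)) * (Real.sqrt (n2 g) * Real.sqrt (n2 h)))
    (f := fun t => ((Real.exp (-(a * t)) : ℝ) : ℂ) *
        ((∑ p, (starRingEnd ℂ) (ft g p) * (((Real.cos (t * (es p - E)) : ℝ) : ℂ) * ft h p)) /
        (M : ℂ) ^ d)) (fun t ht => by
      rw [Set.uIoc_of_le (by linarith)] at ht
      rw [norm_mul, Complex.norm_real, Real.norm_eq_abs, abs_of_pos (Real.exp_pos _)]
      have h2 : Real.exp (-(a * t)) ≤ Real.exp (-(a * T)) := by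
        apply Real.exp_le_exp.2
        have := ht.1
        nlinarith
      have h3 := form_cos_norm_le E t g h
      gcongr)
  refine h1.trans (le_of_eq ?_)
  rw [abs_of_nonneg (by linarith)]
  ring

theorem kb_bd {E a T B : ℝ} (ha : 0 < a) (hT : 0 ≤ T) (x y : Tor d M)
    (hB : ∫ t in T..2 * T,
        (‖(∑ p, ec p (x - y) * Complex.exp (Complex.I * ((t * es p : ℝ) : ℂ))) / (M : ℂ) ^ d‖ +
          ‖(∑ p, ec p (x - y) * Complex.exp (-(Complex.I * ((t * es p : ℝ) : ℂ)))) /
            (M : ℂ) ^ d‖) ≤ B) :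
    ‖kb E a T x y‖ ≤ Real.exp (-(a * T)) * B := by
  have hle : T ≤ 2 * T := by linarith
  have hc : Continuous fun t : ℝ => ((Real.exp (-(a * t)) : ℝ) : ℂ) :=
    Complex.continuous_ofReal.comp (by fun_prop)
  unfold kb
  refine (intervalIntegral.norm_integral_le_integral_norm hle).trans ?_
  have hc1 : Continuous fun t : ℝ => (‖(∑ p, ec p (x - y) *
      Complex.exp (Complex.I * ((t * es p : ℝ) : ℂ))) / (M : ℂ) ^ d‖ +
      ‖(∑ p, ec p (x - y) * Complex.exp (-(Complex.I * ((t * es p : ℝ) : ℂ)))) /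
            (M : ℂ) ^ d‖) := by
    refine Continuous.add (Continuous.norm (Continuous.div_const
      (continuous_finsetSum _ fun p _ => ?_) _)) (Continuous.norm (Continuous.div_const
      (continuous_finsetSum _ fun p _ => ?_) _))
    · exact continuous_const.mul (Complex.continuous_exp.comp (continuous_const.mul
        (Complex.continuous_ofReal.comp (continuous_id.mul continuous_const))))
    · exact continuous_const.mul (Complex.continuous_exp.comp (continuous_const.mul
        (Complex.continuous_ofReal.comp (continuous_id.mul continuous_const))).neg)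
  have h1 : ∫ t in T..2 * T, ‖((Real.exp (-(a * t)) : ℝ) : ℂ) * kt E t (x - y)‖ ≤
      ∫ t in T..2 * T, Real.exp (-(a * T)) * (‖(∑ p, ec p (x - y) *
      Complex.exp (Complex.I * ((t * es p : ℝ) : ℂ))) / (M : ℂ) ^ d‖ +
      ‖(∑ p, ec p (x - y) * Complex.exp (-(Complex.I * ((t * es p : ℝ) : ℂ)))) /
            (M : ℂ) ^ d‖) := by
    refine intervalIntegral.integral_mono_on hle
      ((hc.mul (kt_cont E (x - y))).norm.intervalIntegrable _ _)
      ((continuous_const.mul hc1).intervalIntegrable _ _) fun t ht => ?_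
    rw [norm_mul, Complex.norm_real, Real.norm_eq_abs, abs_of_pos (Real.exp_pos _)]
    have h2 : Real.exp (-(a * t)) ≤ Real.exp (-(a * T)) := by
      apply Real.exp_le_exp.2
      have := ht.1
      nlinarith
    have h3 := kt_norm_le E t (x - y)
    gcongr
  refine h1.trans ?_
  rw [intervalIntegral.integral_const_mul]
  gcongr

end Pool.Agent.LE.QD.H70
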